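import Mathlib

/-!
# [H24 W C1] power sums control the largest element

Suppose `|ω_i| > r` for some `i`, let `ρ = max |ω_i| > r > 0`.  Put `z_i = ω_i / |ω_i|` (`1` if `ω_i = 0`).
(1) Recurrence: for every `m0` there is `m ≥ m0`, `m ≥ 1`, with `|z_i^(2m) - 1| ≤ 1/2` for all `i`: the sequence
`k ↦ (z_i^(2 m0 k))_i`, `m0 ≥ 1`, has a convergent subsequence in the compact torus (product of unit circles, or the
compact product of closed balls), so two members `k < k'` are at distance `≤ 1/2`, and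
`|z_i^(2 m0 (k' - k)) - 1| = |z_i^(2 m0 k') - z_i^(2 m0 k)|`; `m = m0 (k' - k) ≥ m0`.
(2) For such `m`: `Re ω_i^(2m) = |ω_i|^(2m) Re z_i^(2m) ≥ |ω_i|^(2m) / 2 ≥ 0`, so
`|∑ ω_i^(2m)| ≥ Re ≥ ρ^(2m) / 2`.  With the hypothesis `(ρ/r)^(2m) ≤ 2 C` for arbitrarily large `m`: contradiction
(`tendsto_pow_atTop_atTop_of_one_lt`).
-/

namespace Pool.Agent.H24.W

/-- recurrence on the torus -/
private theorem recur (D : ℕ) (z : Fin D → ℂ) (hz : ∀ i, ‖z i‖ = 1) (M : ℕ) (hM : 1 ≤ M) :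
    ∃ m, M ≤ m ∧ ∀ i, ‖z i ^ (2 * m) - 1‖ ≤ 1 / 2 := by
  have hcomp : IsCompact (Metric.closedBall (0 : Fin D → ℂ) 1) := isCompact_closedBall _ _
  have hmem : ∀ k : ℕ, (fun i => z i ^ (2 * M * k)) ∈ Metric.closedBall (0 : Fin D → ℂ) 1 := by
    intro k
    rw [mem_closedBall_zero_iff, pi_norm_le_iff_of_nonneg zero_le_one]
    intro i
    rw [norm_pow, hz i, one_pow]
  obtain ⟨a, _, φ, hφ, hlim⟩ := hcomp.tendsto_subseq hmem
  rw [Metric.tendsto_atTop] at hlim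
  obtain ⟨N, hN⟩ := hlim (1 / 4) (by norm_num)
  have h1 := hN N le_rfl
  have h2 := hN (N + 1) (by omega)
  have hlt : φ N < φ (N + 1) := hφ (by omega)
  refine ⟨M * (φ (N + 1) - φ N), ?_, ?_⟩
  · exact Nat.le_mul_of_pos_right M (by omega)
  · intro i
    have h3 : dist (z i ^ (2 * M * φ (N + 1))) (z i ^ (2 * M * φ N)) ≤ 1 / 2 := by
      have h4 : dist (z i ^ (2 * M * φ (N + 1))) (a i) ≤ 1 / 4 :=
        (dist_le_pi_dist ((fun i => z i ^ (2 * M * φ (N + 1))) : Fin D → ℂ) a i).trans h2.le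
      have h5 : dist (z i ^ (2 * M * φ N)) (a i) ≤ 1 / 4 :=
        (dist_le_pi_dist ((fun i => z i ^ (2 * M * φ N)) : Fin D → ℂ) a i).trans h1.le
      calc dist (z i ^ (2 * M * φ (N + 1))) (z i ^ (2 * M * φ N))
          ≤ dist (z i ^ (2 * M * φ (N + 1))) (a i) + dist (z i ^ (2 * M * φ N)) (a i) :=
            dist_triangle_right _ _ _
        _ ≤ 1 / 2 := by linarith
    have h6 : z i ^ (2 * M * φ (N + 1)) - z i ^ (2 * M * φ N) =
        z i ^ (2 * M * φ N) * (z i ^ (2 * (M * (φ (N + 1) - φ N))) - 1) := by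
      rw [mul_sub, mul_one, ← pow_add]
      congr 2
      obtain ⟨e, he⟩ : ∃ e, φ (N + 1) = φ N + e := ⟨φ (N + 1) - φ N, by omega⟩
      rw [he, Nat.add_sub_cancel_left]
      ring
    rw [dist_eq_norm, h6, norm_mul, norm_pow, hz i, one_pow, one_mul] at h3
    exact h3

theorem bound_of_power_sums (D : ℕ) (ω : Fin D → ℂ) (C r : ℝ) (hr : 0 < r) (m0 : ℕ)
    (h : ∀ m ≥ m0, ‖∑ i, ω i ^ (2 * m)‖ ≤ C * r ^ (2 * m)) (i : Fin D) : ‖ω i‖ ≤ r := by
  by_contra hlt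
  push Not at hlt
  have hρ : 1 < ‖ω i‖ / r := by rwa [lt_div_iff₀ hr, one_mul]
  obtain ⟨n, hn⟩ := pow_unbounded_of_one_lt (2 * C) hρ
  set z : Fin D → ℂ := fun j => if ω j = 0 then 1 else ω j / (‖ω j‖ : ℂ) with hz
  have hz1 : ∀ j, ‖z j‖ = 1 := by
    intro j
    simp only [hz]
    split_ifs with h0
    · simp
    · rw [norm_div, Complex.norm_real, norm_norm, div_self (norm_ne_zero_iff.mpr h0)]
  have hω : ∀ j, ∀ m : ℕ, 1 ≤ m → ω j ^ m = ((‖ω j‖ ^ m : ℝ) : ℂ) * z j ^ m := by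
    intro j m hm
    simp only [hz]
    split_ifs with h0
    · rw [h0, norm_zero, zero_pow (by omega), zero_pow (by omega)]
      simp
    · have h1 : ((‖ω j‖ : ℝ) : ℂ) ≠ 0 := by
        exact_mod_cast norm_ne_zero_iff.mpr h0
      rw [div_pow]
      push_cast
      field_simp
  obtain ⟨m, hm, hm2⟩ := recur D z hz1 (max (max m0 n) 1) (le_max_right _ _)
  have hm0 : m0 ≤ m := (le_max_left _ _).trans ((le_max_left _ _).trans hm)
  have hmn : n ≤ m := (le_max_right _ _).trans ((le_max_left _ _).trans hm)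
  have hm1 : 1 ≤ m := (le_max_right _ _).trans hm
  have hre : ∀ j, ‖ω j‖ ^ (2 * m) / 2 ≤ (ω j ^ (2 * m)).re := by
    intro j
    rw [hω j (2 * m) (by omega), Complex.re_ofReal_mul]
    have h3 : 1 / 2 ≤ (z j ^ (2 * m)).re := by
      have h4 := (abs_le.mp ((Complex.abs_re_le_norm _).trans (hm2 j))).1
      rw [Complex.sub_re, Complex.one_re] at h4
      linarith
    have h5 : 0 ≤ ‖ω j‖ ^ (2 * m) := by positivity
    nlinarith
  have hsum : ‖ω i‖ ^ (2 * m) / 2 ≤ ‖∑ j, ω j ^ (2 * m)‖ := by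
    calc ‖ω i‖ ^ (2 * m) / 2 ≤ ∑ j, ‖ω j‖ ^ (2 * m) / 2 :=
          Finset.single_le_sum (f := fun j => ‖ω j‖ ^ (2 * m) / 2) (fun j _ => by positivity)
            (Finset.mem_univ i)
      _ ≤ ∑ j, (ω j ^ (2 * m)).re := Finset.sum_le_sum fun j _ => hre j
      _ = (∑ j, ω j ^ (2 * m)).re := by rw [Complex.re_sum]
      _ ≤ ‖∑ j, ω j ^ (2 * m)‖ := Complex.re_le_norm _
  have h6 := hsum.trans (h m hm0)
  have h7 : (‖ω i‖ / r) ^ (2 * m) ≤ 2 * C := by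
    rw [div_pow, div_le_iff₀ (by positivity)]
    linarith
  have h8 : (‖ω i‖ / r) ^ n ≤ (‖ω i‖ / r) ^ (2 * m) := pow_le_pow_right₀ hρ.le (by omega)
  linarith

end Pool.Agent.H24.W
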