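import Mathlib

/-!
# [H24 W B7] power sums from Newton's identity

`B = ∑_{k ≤ D} b_k X^(D - k)` is monic of degree `D` over `ℂ`, so `B = ∏_{i : Fin D} (X - ω_i)`
(`IsAlgClosed.splits`, `Splits.eq_prod_roots`, the multiset of roots has `D` elements), and
`b_k = (-1)^k e_k(ω)` for all `k` (`k ≤ D`: `Multiset.prod_X_sub_C_coeff` / Vieta, `k > D`: both `0`),
`e_k(ω) = MvPolynomial.aeval ω (esymm (Fin D) ℂ k)`.  `MvPolynomial.mul_esymm_eq_sum` evaluated at `ω`,
`P_n = ∑ ω_i^n`: `k b_k = - ∑_{a < k} b_a P_{k-a}`.  With the hypothesis, induction: for `n ≥ 1`,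
`T_n b_0 + ∑_{1 ≤ a < n} T_{n-a} b_a = n b_n = - P_n b_0 - ∑_{1 ≤ a < n} b_a P_{n-a}` and `T_{n-a} = - P_{n-a}` give
`T_n = - P_n`.
-/

namespace Pool.Agent.H24.W

open Polynomial

theorem power_sums (D : ℕ) (b T : ℕ → ℂ) (h0 : b 0 = 1) (hb : ∀ k, D < k → b k = 0)
    (hN : ∀ k : ℕ, (k : ℂ) * b k = ∑ n ∈ Finset.Icc 1 k, T n * b (k - n)) :
    ∃ ω : Fin D → ℂ, ∀ n, 1 ≤ n → T n = -∑ i, ω i ^ n := by
  classical
  set B : ℂ[X] := ∑ i ∈ Finset.range (D + 1), C (b (D - i)) * X ^ i with hB
  have hcoeff : ∀ i, i ≤ D → B.coeff i = b (D - i) := by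
    intro i hi
    rw [hB, finsetSum_coeff]
    simp only [coeff_C_mul_X_pow]
    rw [Finset.sum_ite_eq, if_pos (Finset.mem_range.mpr (by omega))]
  have hdeg : B.natDegree ≤ D := by
    rw [hB]
    apply natDegree_sum_le_of_forall_le
    intro i hi
    rw [Finset.mem_range] at hi
    exact (natDegree_C_mul_X_pow_le _ _).trans (by omega)
  have hc1 : B.coeff D = 1 := by
    rw [hcoeff D le_rfl, Nat.sub_self, h0]
  have hmonic : B.Monic := monic_of_natDegree_le_of_coeff_eq_one D hdeg hc1
  have hdeg' : B.natDegree = D := by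
    apply le_antisymm hdeg
    apply le_natDegree_of_ne_zero
    rw [hc1]
    exact one_ne_zero
  have hsplit : B.Splits := IsAlgClosed.splits B
  have hprod := hsplit.eq_prod_roots_of_monic hmonic
  have hcard : B.roots.card = D := by
    rw [← hsplit.natDegree_eq_card_roots, hdeg']
  obtain ⟨l, hl⟩ := Quot.exists_rep B.roots
  have hl' : (l : Multiset ℂ) = B.roots := hl
  have hlen : l.length = D := by
    rw [← hcard, ← hl', Multiset.coe_card]
  subst hlen
  set ω : Fin l.length → ℂ := l.get with hω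
  have hmap : Multiset.map ω Finset.univ.val = B.roots := by
    rw [Fin.univ_val_map, hω, List.ofFn_get, hl']
  set E : ℕ → ℂ := fun k => (Multiset.map ω Finset.univ.val).esymm k with hE
  have hEa : ∀ k, E k = MvPolynomial.aeval ω (MvPolynomial.esymm (Fin l.length) ℂ k) := by
    intro k
    rw [MvPolynomial.aeval_esymm_eq_multiset_esymm]
  have hbE : ∀ k, b k = (-1) ^ k * E k := by
    intro k
    rcases le_or_gt k l.length with hk | hk
    · have h1 := hcoeff (l.length - k) (Nat.sub_le _ _)
      rw [Nat.sub_sub_self hk] at h1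
      rw [← h1, hprod, Multiset.prod_X_sub_C_coeff _ (by rw [hcard]; exact Nat.sub_le _ _), hcard,
        Nat.sub_sub_self hk, ← hmap]
    · rw [hb k hk, hEa]
      have : MvPolynomial.esymm (Fin l.length) ℂ k = 0 := by
        unfold MvPolynomial.esymm
        rw [Finset.powersetCard_eq_empty.mpr (by simpa using hk)]
        simp
      rw [this, map_zero, mul_zero]
  set P : ℕ → ℂ := fun n => ∑ i, ω i ^ n with hP
  have hnewt : ∀ k : ℕ, (k : ℂ) * b k = -∑ n ∈ Finset.Icc 1 k, P n * b (k - n) := by
    intro k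
    have h1 := congrArg (MvPolynomial.aeval ω) (MvPolynomial.mul_esymm_eq_sum (Fin l.length) ℂ k)
    rw [map_mul, map_natCast, ← hEa, map_mul, map_pow, map_neg, map_one, map_sum] at h1
    have h2 : ∀ a ∈ (Finset.HasAntidiagonal.antidiagonal k).filter (fun a => a.1 < k),
        MvPolynomial.aeval ω ((-1) ^ a.1 * MvPolynomial.esymm (Fin l.length) ℂ a.1 *
          MvPolynomial.psum (Fin l.length) ℂ a.2) = b a.1 * P a.2 := by
      intro a _
      rw [map_mul, map_mul, map_pow, map_neg, map_one, ← hEa, hbE a.1]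
      congr 1
      unfold MvPolynomial.psum
      rw [map_sum]
      simp [hP]
    rw [Finset.sum_congr rfl h2] at h1
    have h3 : ∑ a ∈ (Finset.HasAntidiagonal.antidiagonal k).filter (fun a => a.1 < k), b a.1 * P a.2 =
        ∑ n ∈ Finset.Icc 1 k, P n * b (k - n) := by
      refine Finset.sum_bij' (fun a _ => a.2) (fun n _ => (k - n, n)) ?_ ?_ ?_ ?_ ?_
      · intro a ha
        rw [Finset.mem_filter, Finset.HasAntidiagonal.mem_antidiagonal] at ha
        rw [Finset.mem_Icc]
        omega
      · intro n hn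
        rw [Finset.mem_Icc] at hn
        rw [Finset.mem_filter, Finset.HasAntidiagonal.mem_antidiagonal]
        simp only
        omega
      · intro a ha
        rw [Finset.mem_filter, Finset.HasAntidiagonal.mem_antidiagonal] at ha
        ext
        · simp only
          omega
        · rfl
      · intro n _
        rfl
      · intro a ha
        rw [Finset.mem_filter, Finset.HasAntidiagonal.mem_antidiagonal] at ha
        rw [show k - a.2 = a.1 by omega]
        ring
    rw [h3] at h1
    rw [hbE k, show (k : ℂ) * ((-1) ^ k * E k) = (-1) ^ k * ((k : ℂ) * E k) by ring, h1, ← mul_assoc,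
      ← pow_add, show k + (k + 1) = 2 * k + 1 by ring, pow_succ, pow_mul]
    simp
  refine ⟨ω, ?_⟩
  intro n
  induction n using Nat.strong_induction_on with
  | _ n ih =>
    intro hn
    have h1 := hN n
    rw [hnewt n] at h1
    have h2 : ∑ m ∈ Finset.Icc 1 n, (T m + P m) * b (n - m) = 0 := by
      simp only [add_mul, Finset.sum_add_distrib]
      rw [← h1]
      ring
    rw [Finset.sum_eq_single n] at h2
    · rw [Nat.sub_self, h0, mul_one] at h2
      exact eq_neg_of_add_eq_zero_left h2
    · intro m hm hmn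
      rw [Finset.mem_Icc] at hm
      rw [ih m (by omega) hm.1]
      simp [hP]
    · intro hn'
      exfalso
      apply hn'
      rw [Finset.mem_Icc]
      omega

end Pool.Agent.H24.W
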