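import Pool.Agent.H24.W.Def

/-!
# [H24 W B3] the degree as a sum over prime powers dividing `g`

`g` monic of degree `k`.  `g = (normalizedFactors g).prod` (`prod_normalizedFactors`, both monic), all factors monic
irreducible, so `k = ∑_P (count P) * natDegree P` over the distinct `P` (`natDegree_multiset_prod_of_monic`,
`Finset.sum_multiset_count`), `count P = #{r ∈ [1, k] : P^r ∣ g}` (`emultiplicity_eq_count_normalizedFactors`,
`pow_dvd_iff_le_emultiplicity`, count `≤ k`), and `P^r ∣ g` with `r ≥ 1` implies `1 ≤ natDegree P ≤ k` and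
`P ∈ normalizedFactors g`.  (Or: induction on the number of factors.)
-/

namespace Pool.Agent.H24.W

open Polynomial

variable {p : ℕ} [Fact p.Prime]

open Classical in
theorem deg_sum (k : ℕ) (g : (ZMod p)[X]) (hg : g ∈ mo p k) :
    k = ∑ d ∈ Finset.Icc 1 k, ∑ P ∈ (mo p d).filter Irreducible,
      d * ((Finset.Icc 1 k).filter (fun r => P ^ r ∣ g)).card := by
  rw [mem_mo] at hg
  obtain ⟨hmon, hdeg⟩ := hg
  have hg0 : g ≠ 0 := hmon.ne_zero
  set m := UniqueFactorizationMonoid.normalizedFactors g with hm
  have hfac : ∀ P ∈ m, P.Monic ∧ Irreducible P ∧ P ∣ g := by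
    intro P hP
    have hirr := UniqueFactorizationMonoid.irreducible_of_normalized_factor P hP
    refine ⟨?_, hirr, UniqueFactorizationMonoid.dvd_of_mem_normalizedFactors hP⟩
    have h1 := UniqueFactorizationMonoid.normalize_normalized_factor P hP
    rw [← h1]
    exact Polynomial.monic_normalize hirr.ne_zero
  have hprod : m.prod = g := by
    rw [hm, UniqueFactorizationMonoid.prod_normalizedFactors_eq hg0, hmon.normalize_eq_self]
  have hk : k = ∑ P ∈ m.toFinset, P.natDegree * Multiset.count P m := by
    calc k = g.natDegree := hdeg.symm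
      _ = m.prod.natDegree := by rw [hprod]
      _ = (Multiset.map Polynomial.natDegree m).sum :=
          natDegree_multiset_prod_of_monic m fun f hf => (hfac f hf).1
      _ = ∑ P ∈ m.toFinset, P.natDegree * Multiset.count P m := by
          rw [Finset.sum_multiset_map_count]
          refine Finset.sum_congr rfl fun P _ => ?_
          rw [smul_eq_mul, mul_comm]
  have hcount : ∀ P : (ZMod p)[X], P.Monic → Irreducible P →
      ((Finset.Icc 1 k).filter (fun r => P ^ r ∣ g)).card = Multiset.count P m := by
    intro P hPm hPi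
    have hiff : ∀ r : ℕ, P ^ r ∣ g ↔ r ≤ Multiset.count P m := by
      intro r
      rw [pow_dvd_iff_le_emultiplicity,
        UniqueFactorizationMonoid.emultiplicity_eq_count_normalizedFactors hPi hg0,
        hPm.normalize_eq_self, ← hm]
      exact Nat.cast_le
    have hle : Multiset.count P m ≤ k := by
      have h1 : P ^ Multiset.count P m ∣ g := (hiff _).mpr le_rfl
      have h2 := natDegree_le_of_dvd h1 hg0
      rw [natDegree_pow, hdeg] at h2
      have h3 : 1 ≤ P.natDegree := by
        have := hPi.natDegree_pos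
        omega
      calc Multiset.count P m ≤ Multiset.count P m * P.natDegree := Nat.le_mul_of_pos_right _ h3
        _ ≤ k := h2
    have hset : (Finset.Icc 1 k).filter (fun r => P ^ r ∣ g) = Finset.Icc 1 (Multiset.count P m) := by
      ext r
      rw [Finset.mem_filter, Finset.mem_Icc, Finset.mem_Icc, hiff]
      omega
    rw [hset, Nat.card_Icc]
    omega
  have hmaps : ∀ P ∈ m.toFinset, P.natDegree ∈ Finset.Icc 1 k := by
    intro P hP
    rw [Multiset.mem_toFinset] at hP
    obtain ⟨_, h2, h3⟩ := hfac P hP
    rw [Finset.mem_Icc]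
    refine ⟨h2.natDegree_pos, ?_⟩
    rw [← hdeg]
    exact natDegree_le_of_dvd h3 hg0
  conv_lhs => rw [hk]
  rw [← Finset.sum_fiberwise_of_maps_to hmaps]
  refine Finset.sum_congr rfl fun d _ => ?_
  have hsub : m.toFinset.filter (fun P => P.natDegree = d) ⊆ (mo p d).filter Irreducible := by
    intro P hP
    rw [Finset.mem_filter, Multiset.mem_toFinset] at hP
    obtain ⟨h1, h2, _⟩ := hfac P hP.1
    rw [Finset.mem_filter, mem_mo]
    exact ⟨⟨h1, hP.2⟩, h2⟩
  rw [← Finset.sum_subset hsub]
  · refine Finset.sum_congr rfl fun P hP => ?_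
    rw [Finset.mem_filter, Multiset.mem_toFinset] at hP
    obtain ⟨h1, h2, _⟩ := hfac P hP.1
    rw [hcount P h1 h2, hP.2]
  · intro P hP hnot
    rw [Finset.mem_filter, mem_mo] at hP
    rw [hcount P hP.1.1 hP.2]
    have : Multiset.count P m = 0 := by
      rw [Multiset.count_eq_zero]
      intro hmem
      apply hnot
      rw [Finset.mem_filter, Multiset.mem_toFinset]
      exact ⟨hmem, hP.1.2⟩
    rw [this, mul_zero]

end Pool.Agent.H24.W
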