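import Pool.Agent.H24.W.Def

/-!
# [H24 W B5] `ψ (Tr R(x)) = chi (minpoly x)^(n/d)`

`K` finite, `n = [K : F_p]`, `x ∈ K` not in `S`, `P` the minimal polynomial of `x`, `d = deg P`, `m = n / d`.
(1) `Tr x = m * (- nextCoeff P)`: `trace_eq_finrank_mul_minpoly_nextCoeff`, `[K : F_p(x)] = n / d`.
(2) `Tr (x - a)⁻¹ = m * (- P'(a) / P(a))`.  Either: the minimal polynomial `P1 = P.comp (X + C a)` of `x - a`
(`minpoly.sub_algebraMap` or similar) has `P1(0) = P(a) ≠ 0`, `P1'(0) = P'(a)`; the minimal polynomial of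
`(x - a)⁻¹` is `C (P1(0))⁻¹ * P1.reverse` (monic, degree `d`, and `F_p((x-a)⁻¹) = F_p(x)` has degree `d`), whose
`nextCoeff` is `P1.coeff 1 / P1.coeff 0`; use (1).  Or: `algebraMap (Tr z) = ∑_{i<n} z^(p^i)`
(`FiniteField.algebraMap_trace_eq_sum_pow`), `P = ∏_{i<d} (X - x^(p^i))` over `K`,
`∑_{i<n} 1/(a - x^(p^i)) = m P'(a)/P(a)` (`Splits.eval_derivative_div_eval_of_ne_zero`).
(3) `Tr R(x) = m • (-(t nextCoeff P) - ∑ c_a P'(a)/P(a))` (trace linear over `F_p`), `AddChar.map_nsmul_eq_pow`;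
`P(a) ≠ 0` for `a ∈ S`: otherwise `X - C a ∣ P`, `P = X - C a`, `x = a`.
-/

namespace Pool.Agent.H24.W

open Polynomial

variable {p : ℕ} [Fact p.Prime]

private theorem fr_eq {K : Type} [Field K] [Fintype K] [Algebra (ZMod p) K] (z : K) :
    Module.finrank (IntermediateField.adjoin (ZMod p) {z}) K =
      Module.finrank (ZMod p) K / (minpoly (ZMod p) z).natDegree := by
  have h1 := Module.finrank_mul_finrank (ZMod p) (IntermediateField.adjoin (ZMod p) {z}) K
  have hint : IsIntegral (ZMod p) z := Algebra.IsIntegral.isIntegral z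
  rw [IntermediateField.adjoin.finrank hint] at h1
  rw [← h1, Nat.mul_div_cancel_left _ (minpoly.natDegree_pos hint)]

private theorem minpoly_inv' {K : Type} [Field K] [Fintype K] [Algebra (ZMod p) K] (y : K)
    (hy : y ≠ 0) : (minpoly (ZMod p) y).coeff 0 ≠ 0 ∧
      (minpoly (ZMod p) y⁻¹) = C ((minpoly (ZMod p) y).coeff 0)⁻¹ *
        (minpoly (ZMod p) y).reverse ∧
      (minpoly (ZMod p) y⁻¹).natDegree = (minpoly (ZMod p) y).natDegree := by
  have hint : IsIntegral (ZMod p) y := Algebra.IsIntegral.isIntegral y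
  obtain ⟨P, hP⟩ : ∃ P, P = minpoly (ZMod p) y := ⟨_, rfl⟩
  rw [← hP]
  have h0 : P.coeff 0 ≠ 0 := by
    rw [hP]
    exact minpoly.coeff_zero_ne_zero hint hy
  have hPne : P ≠ 0 := by rw [hP]; exact minpoly.ne_zero hint
  have htr : P.natTrailingDegree = 0 :=
    Nat.le_zero.mp (natTrailingDegree_le_of_ne_zero h0)
  have hlc : P.reverse.leadingCoeff = P.coeff 0 := by
    rw [reverse_leadingCoeff, trailingCoeff, htr]
  have hdeg : P.reverse.natDegree = P.natDegree := by
    rw [reverse_natDegree, htr, Nat.sub_zero]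
  let inv : Invertible y := invertibleOfNonzero hy
  have hM : C (P.coeff 0)⁻¹ * P.reverse = minpoly (ZMod p) y⁻¹ := by
    refine minpoly.unique' (ZMod p) y⁻¹ ?_ ?_ ?_
    · unfold Monic
      rw [leadingCoeff_mul, hlc, leadingCoeff_C, inv_mul_cancel₀ h0]
    · rw [map_mul]
      have h2 : aeval y⁻¹ P.reverse = 0 := by
        have h3 := (eval₂_reverse_eq_zero_iff (algebraMap (ZMod p) K) y P).mpr (by
          rw [hP]; exact minpoly.aeval (ZMod p) y)
        rw [invOf_eq_inv] at h3
        exact h3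
      rw [h2, mul_zero]
    · intro q hq
      by_contra hcon
      push Not at hcon
      obtain ⟨hq0, hq1⟩ := hcon
      have h4 : aeval y q.reverse = 0 := by
        have hyi : y⁻¹ ≠ 0 := inv_ne_zero hy
        let inv2 : Invertible y⁻¹ := invertibleOfNonzero hyi
        have h5 := (eval₂_reverse_eq_zero_iff (algebraMap (ZMod p) K) y⁻¹ q).mpr hq1
        rw [invOf_eq_inv, inv_inv] at h5
        exact h5
      have h6 : q.reverse ≠ 0 := by rwa [Ne, reverse_eq_zero]
      have h7 := minpoly.degree_le_of_ne_zero (ZMod p) y h6 h4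
      have h8 : P.natDegree ≤ q.reverse.natDegree := by
        rw [hP]
        exact natDegree_le_natDegree h7
      have h9 := reverse_natDegree_le q
      have h10 : q.natDegree < P.natDegree := by
        have h11 : (C (P.coeff 0)⁻¹ * P.reverse).degree ≤ P.natDegree := by
          refine le_trans degree_le_natDegree ?_
          rw [natDegree_C_mul (inv_ne_zero h0), hdeg]
        have h12 := lt_of_lt_of_le hq h11
        exact (natDegree_lt_iff_degree_lt hq0).mpr h12
      omega
  refine ⟨h0, hM.symm, ?_⟩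
  rw [← hM, natDegree_C_mul (inv_ne_zero h0), hdeg]

theorem trace_inv {K : Type} [Field K] [Fintype K] [Algebra (ZMod p) K] (x : K) (a : ZMod p)
    (hx : x ≠ algebraMap (ZMod p) K a) :
    Algebra.trace (ZMod p) K (x - algebraMap (ZMod p) K a)⁻¹ =
      ((Module.finrank (ZMod p) K / (minpoly (ZMod p) x).natDegree : ℕ) : ZMod p) *
        (-((minpoly (ZMod p) x).derivative.eval a / (minpoly (ZMod p) x).eval a)) := by
  have hy : x - algebraMap (ZMod p) K a ≠ 0 := sub_ne_zero.mpr hx
  obtain ⟨h0, hM, hd⟩ := minpoly_inv' (p := p) _ hy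
  have hP1 : minpoly (ZMod p) (x - algebraMap (ZMod p) K a) =
      (minpoly (ZMod p) x).comp (X + C a) := minpoly.sub_algebraMap x a
  have hd1 : (minpoly (ZMod p) (x - algebraMap (ZMod p) K a)).natDegree =
      (minpoly (ZMod p) x).natDegree := by
    rw [hP1, natDegree_comp, natDegree_X_add_C, mul_one]
  have hpos : 0 < (minpoly (ZMod p) x).natDegree :=
    minpoly.natDegree_pos (Algebra.IsIntegral.isIntegral x)
  rw [trace_eq_finrank_mul_minpoly_nextCoeff (ZMod p), fr_eq, hd, hd1]
  congr 2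
  rw [nextCoeff_of_natDegree_pos (by rw [hd, hd1]; exact hpos), hd, hM, coeff_C_mul,
    coeff_reverse, hd1]
  have h5 : revAt (minpoly (ZMod p) x).natDegree ((minpoly (ZMod p) x).natDegree - 1) = 1 := by
    rw [revAt_le (by omega)]
    omega
  rw [h5, hP1]
  have h6 : (minpoly (ZMod p) x).comp (X + C a) = taylor a (minpoly (ZMod p) x) := rfl
  rw [h6, taylor_coeff_zero, taylor_coeff_one, div_eq_inv_mul]

theorem psi_tr {K : Type} [Field K] [Fintype K] [Algebra (ZMod p) K] (ψ : AddChar (ZMod p) ℂ)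
    (S : Finset (ZMod p)) (c : ZMod p → ZMod p) (t : ZMod p) (x : K)
    (hx : ¬ ∃ a ∈ S, x = algebraMap (ZMod p) K a) :
    ψ (Algebra.trace (ZMod p) K (rf S c t x)) = chi ψ S c t (minpoly (ZMod p) x) ^
      (Module.finrank (ZMod p) K / (minpoly (ZMod p) x).natDegree) := by
  classical
  have hint : IsIntegral (ZMod p) x := Algebra.IsIntegral.isIntegral x
  have hne : ∀ a ∈ S, x ≠ algebraMap (ZMod p) K a := fun a ha h => hx ⟨a, ha, h⟩
  have hchi : ¬ ∃ a ∈ S, (minpoly (ZMod p) x).eval a = 0 := by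
    rintro ⟨a, ha, h⟩
    have h1 : (X - C a) ∣ minpoly (ZMod p) x := dvd_iff_isRoot.mpr h
    have h2 : Associated (X - C a) (minpoly (ZMod p) x) :=
      (irreducible_X_sub_C a).associated_of_dvd (minpoly.irreducible hint) h1
    have h3 : X - C a = minpoly (ZMod p) x :=
      eq_of_monic_of_associated (monic_X_sub_C a) (minpoly.monic hint) h2
    have h4 := minpoly.aeval (ZMod p) x
    rw [← h3, map_sub, aeval_X, aeval_C, sub_eq_zero] at h4
    exact hne a ha h4
  unfold chi
  rw [if_neg hchi, ← AddChar.map_nsmul_eq_pow]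
  congr 1
  unfold rf
  rw [map_add, map_sum, ← Algebra.smul_def, map_smul, smul_eq_mul,
    trace_eq_finrank_mul_minpoly_nextCoeff (ZMod p) x, fr_eq, nsmul_eq_mul, mul_sub,
    Finset.mul_sum, sub_eq_add_neg, ← Finset.sum_neg_distrib]
  congr 1
  · ring
  · refine Finset.sum_congr rfl fun a ha => ?_
    rw [← Algebra.smul_def, map_smul, smul_eq_mul, trace_inv x a (hne a ha)]
    ring

end Pool.Agent.H24.W
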