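import Pool.Agent.H24.W.B1
import Pool.Agent.H24.W.B5

/-!
# [H24 W B6] the sum over `K` is the power sum `t_n`

`n = [K : F_p]`.  `card_min`: for `P` monic irreducible of degree `d ∣ n` exactly `d` elements of `K` have minimal
polynomial `P`: `P ∣ X^(p^n) - X` (`Irreducible.natDegree_dvd_iff_dvd_X_pow_card_pow_sub_X` in
`Mathlib/FieldTheory/Finite/Extension.lean`, `Nat.card (ZMod p) = p`), which splits over `K` into distinct linear
factors (`|K| = p^n`, `FiniteField.X_pow_card_sub_X..`, `FiniteField.roots_X_pow_card_sub_X`), so `P` has `d` distinct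
roots in `K`; `minpoly x = P ↔ P(x) = 0` (`minpoly.eq_of_irreducible_of_monic`).
`sk_eq`: `sk = ∑_{x ∈ K} chi (minpoly x)^(n / deg)` (`psi_tr` off the poles; at a pole `minpoly = X - C a`,
`minpoly.eq_X_sub_C`, `chi_pole`, `0^n = 0`, `n ≥ 1`); group by `P = minpoly x`, whose degree divides `n`
(`minpoly.degree_dvd`): `Finset.sum_fiberwise`-like, `d ∈ n.divisors`, `P ∈ (mo p d).filter Irreducible`.
-/

namespace Pool.Agent.H24.W

open Polynomial

variable {p : ℕ} [Fact p.Prime]

theorem card_min {K : Type} [Field K] [Fintype K] [Algebra (ZMod p) K] (P : (ZMod p)[X])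
    (hP : P.Monic) (hi : Irreducible P) (hd : P.natDegree ∣ Module.finrank (ZMod p) K) :
    Nat.card {x : K // minpoly (ZMod p) x = P} = P.natDegree := by
  classical
  obtain ⟨n, hn⟩ : ∃ n, n = Module.finrank (ZMod p) K := ⟨_, rfl⟩
  have hcard : Fintype.card K = p ^ n := by
    rw [hn, Module.card_eq_pow_finrank (K := ZMod p) (V := K), ZMod.card]
  have hdvd : P ∣ X ^ (p ^ n) - X := by
    have h1 := (hi.natDegree_dvd_iff_dvd_X_pow_card_pow_sub_X (n := n)).mp (hn ▸ hd)
    rwa [Nat.card_zmod] at h1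
  have hdvd' : P.map (algebraMap (ZMod p) K) ∣ X ^ (Fintype.card K) - X := by
    have h2 := Polynomial.map_dvd (algebraMap (ZMod p) K) hdvd
    rw [Polynomial.map_sub, Polynomial.map_pow, map_X, ← hcard] at h2
    exact h2
  have hne : (X ^ (Fintype.card K) - X : K[X]) ≠ 0 :=
    FiniteField.X_pow_card_sub_X_ne_zero K Fintype.one_lt_card
  have hroots := FiniteField.roots_X_pow_card_sub_X K
  have hPm : (P.map (algebraMap (ZMod p) K)).Monic := hP.map _
  have hsplit : (P.map (algebraMap (ZMod p) K)).Splits := by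
    refine Splits.of_dvd ?_ hne hdvd'
    rw [splits_iff_card_roots, hroots]
    rw [FiniteField.X_pow_card_sub_X_natDegree_eq K Fintype.one_lt_card]
    exact Finset.card_univ
  have hnodup : (P.map (algebraMap (ZMod p) K)).roots.Nodup := by
    have h3 := roots.le_of_dvd hne hdvd'
    rw [hroots] at h3
    exact Multiset.nodup_of_le h3 Finset.univ.nodup
  have hc : (P.map (algebraMap (ZMod p) K)).roots.card = P.natDegree := by
    rw [splits_iff_card_roots.mp hsplit, natDegree_map]
  have hset : ∀ x : K, minpoly (ZMod p) x = P ↔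
      x ∈ (P.map (algebraMap (ZMod p) K)).roots.toFinset := by
    intro x
    rw [Multiset.mem_toFinset, mem_roots hPm.ne_zero, IsRoot, eval_map_algebraMap]
    constructor
    · rintro rfl
      exact minpoly.aeval (ZMod p) x
    · intro h
      exact (minpoly.eq_of_irreducible_of_monic hi h hP).symm
  rw [Nat.card_congr (Equiv.subtypeEquivRight hset), Nat.card_eq_fintype_card,
    Fintype.card_coe, Multiset.toFinset_card_of_nodup hnodup, hc]

theorem sk_eq {K : Type} [Field K] [Fintype K] [Algebra (ZMod p) K] (ψ : AddChar (ZMod p) ℂ)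
    (S : Finset (ZMod p)) (c : ZMod p → ZMod p) (t : ZMod p) :
    sk ψ S c t K = tn ψ S c t (Module.finrank (ZMod p) K) := by
  classical
  obtain ⟨n, hn⟩ : ∃ n, n = Module.finrank (ZMod p) K := ⟨_, rfl⟩
  have hnpos : 0 < n := hn ▸ Module.finrank_pos
  rw [← hn]
  have hterm : ∀ x : K, (if (∃ a ∈ S, x = algebraMap (ZMod p) K a) then (0 : ℂ)
      else ψ (Algebra.trace (ZMod p) K (rf S c t x))) =
      chi ψ S c t (minpoly (ZMod p) x) ^ (n / (minpoly (ZMod p) x).natDegree) := by
    intro x
    split_ifs with h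
    · obtain ⟨a, ha, rfl⟩ := h
      rw [minpoly.eq_X_sub_C, chi_pole ψ S c t ha, natDegree_X_sub_C, Nat.div_one,
        zero_pow hnpos.ne']
    · rw [psi_tr ψ S c t x h, hn]
  unfold sk
  rw [Finset.sum_congr rfl fun x _ => hterm x]
  have hmem : ∀ x : K, minpoly (ZMod p) x ∈
      n.divisors.biUnion fun d => (mo p d).filter Irreducible := by
    intro x
    have hint : IsIntegral (ZMod p) x := Algebra.IsIntegral.isIntegral x
    rw [Finset.mem_biUnion]
    refine ⟨(minpoly (ZMod p) x).natDegree, ?_, ?_⟩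
    · rw [Nat.mem_divisors]
      refine ⟨?_, hnpos.ne'⟩
      rw [hn]
      exact minpoly.degree_dvd hint
    · rw [Finset.mem_filter, mem_mo]
      exact ⟨⟨minpoly.monic hint, rfl⟩, minpoly.irreducible hint⟩
  rw [← Finset.sum_fiberwise_of_maps_to (s := Finset.univ) (g := fun x : K => minpoly (ZMod p) x)
    (fun x _ => hmem x)]
  unfold tn
  rw [Finset.sum_biUnion]
  · refine Finset.sum_congr rfl fun d hd => Finset.sum_congr rfl fun P hP => ?_
    rw [Finset.mem_filter, mem_mo] at hP
    rw [Nat.mem_divisors] at hd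
    rw [Finset.sum_congr rfl (g := fun _ => chi ψ S c t P ^ (n / d))
      (fun x hx => by rw [(Finset.mem_filter.mp hx).2, hP.1.2]), Finset.sum_const,
      nsmul_eq_mul]
    congr 1
    have h5 := card_min (K := K) P hP.1.1 hP.2 (by rw [hP.1.2, ← hn]; exact hd.1)
    rw [hP.1.2, Nat.card_eq_fintype_card, Fintype.card_subtype] at h5
    rw [h5]
  · intro d _ d' _ hdd
    rw [Function.onFun, Finset.disjoint_left]
    intro P hP hP'
    rw [Finset.mem_filter, mem_mo] at hP hP'
    exact hdd (hP.1.2.symm.trans hP'.1.2)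

end Pool.Agent.H24.W
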