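import Mathlib

/-!
# Weil's bound for rational functions with simple poles (chapter W of LP): definitions

`R(x) = t x + ∑_{a ∈ S} c_a / (x - a)` over `F_p`, `S` a finite set of elements of `F_p`.
`sk` is the complete sum over an extension `K`, `chi` the character of monic polynomials with
`chi (minpoly x) = ψ (Tr R(x))`, `bk` the coefficients of the L-function, `tn` its power sums.
Stepanov's method: `z = Q y`, `y^p - y = R(x)`, `z^p - Q^(p-1) z - Q^(p-1) H = 0`, weights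
`(p, b)`, `b = |S| p + 1`.
-/

namespace Pool.Agent.H24.W

open Polynomial

variable {p : ℕ} [Fact p.Prime]

/-- `R(x) = t x + ∑ c_a / (x - a)` -/
noncomputable def rf (S : Finset (ZMod p)) (c : ZMod p → ZMod p) (t : ZMod p) {K : Type}
    [Field K] [Algebra (ZMod p) K] (x : K) : K :=
  algebraMap (ZMod p) K t * x +
    ∑ a ∈ S, algebraMap (ZMod p) K (c a) * (x - algebraMap (ZMod p) K a)⁻¹

open Classical in
/-- the complete sum over `K` -/
noncomputable def sk (ψ : AddChar (ZMod p) ℂ) (S : Finset (ZMod p)) (c : ZMod p → ZMod p)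
    (t : ZMod p) (K : Type) [Field K] [Fintype K] [Algebra (ZMod p) K] : ℂ :=
  ∑ x : K, if (∃ a ∈ S, x = algebraMap (ZMod p) K a) then 0
    else ψ (Algebra.trace (ZMod p) K (rf S c t x))

/-- the monic polynomials of degree `k` -/
noncomputable def mo (p : ℕ) [Fact p.Prime] (k : ℕ) : Finset (ZMod p)[X] :=
  Finset.univ.image fun v : Fin k → ZMod p => X ^ k + ∑ i : Fin k, C (v i) * X ^ (i : ℕ)

open Classical in
/-- the character of monic polynomials: `ψ (∑_θ R(θ))`, `θ` the roots -/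
noncomputable def chi (ψ : AddChar (ZMod p) ℂ) (S : Finset (ZMod p)) (c : ZMod p → ZMod p)
    (t : ZMod p) (g : (ZMod p)[X]) : ℂ :=
  if ∃ a ∈ S, g.eval a = 0 then 0
  else ψ (-(t * g.nextCoeff) - ∑ a ∈ S, c a * (g.derivative.eval a / g.eval a))

/-- coefficients of the L-function -/
noncomputable def bk (ψ : AddChar (ZMod p) ℂ) (S : Finset (ZMod p)) (c : ZMod p → ZMod p)
    (t : ZMod p) (k : ℕ) : ℂ := ∑ g ∈ mo p k, chi ψ S c t g

open Classical in
/-- power sums: sum over the closed points of degree dividing `n` -/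
noncomputable def tn (ψ : AddChar (ZMod p) ℂ) (S : Finset (ZMod p)) (c : ZMod p → ZMod p)
    (t : ZMod p) (n : ℕ) : ℂ :=
  ∑ d ∈ n.divisors, ∑ P ∈ (mo p d).filter Irreducible, (d : ℂ) * chi ψ S c t P ^ (n / d)

/-- `Q = ∏ (X - a)` -/
noncomputable def QQ (S : Finset (ZMod p)) : (ZMod p)[X] := ∏ a ∈ S, (X - C a)

/-- `H = Q R` -/
noncomputable def HH (S : Finset (ZMod p)) (c : ZMod p → ZMod p) (t : ZMod p) : (ZMod p)[X] :=
  C t * X * QQ S + ∑ a ∈ S, C (c a) * QQ (S.erase a)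

/-- `Q^p R` -/
noncomputable def PP (S : Finset (ZMod p)) (c : ZMod p → ZMod p) (t : ZMod p) : (ZMod p)[X] :=
  QQ S ^ (p - 1) * HH S c t

/-- the equation of `z = Q y` over `F_p[X]` -/
noncomputable def Ph (S : Finset (ZMod p)) (c : ZMod p → ZMod p) (t : ZMod p) :
    Polynomial (ZMod p)[X] :=
  X ^ p - C (QQ S ^ (p - 1)) * X - C (PP S c t)

/-- the weight of `Y` (the weight of `X` is `p`) -/
def bb (S : Finset (ZMod p)) : ℕ := S.card * p + 1

/-- bound for the gaps of the semigroup generated by `p` and `bb S` -/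
def gg (S : Finset (ZMod p)) : ℕ := bb S * (p - 1)

/-- all monomials `X^i Y^j` of `G` have weight `p i + b j ≤ W` -/
def wt (b : ℕ) (G : Polynomial (ZMod p)[X]) (W : ℕ) : Prop :=
  ∀ i j, W < p * i + b * j → (G.coeff j).coeff i = 0

/-- the substitution `X ↦ τ^p`, `Y ↦ t τ^b` (leading coefficients) -/
noncomputable def sg (b : ℕ) (t : ZMod p) : Polynomial (ZMod p)[X] →+* (ZMod p)[X] :=
  Polynomial.eval₂RingHom (Polynomial.eval₂RingHom Polynomial.C (X ^ p)) (C t * X ^ b)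

/-- the monomial of weight `w` (`w ≥ gg S`) -/
noncomputable def ee (S : Finset (ZMod p)) (w : ℕ) : Polynomial (ZMod p)[X] :=
  C (X ^ ((w - bb S * (w % p)) / p)) * X ^ (w % p)

/-- the auxiliary function `∑ d_{βα} e_β e_α^{Q0}`, `β, α` in `[g, l]`, `[g, M]` -/
noncomputable def GD (S : Finset (ZMod p)) (Q0 l M : ℕ) (d : ℕ → ℕ → ZMod p) :
    Polynomial (ZMod p)[X] :=
  ∑ β ∈ Finset.Icc (gg S) l, ∑ α ∈ Finset.Icc (gg S) M,
    C (C (d β α)) * (ee S β * ee S α ^ Q0)

/-- `∑ d_{βα} e_β^{Q0} e_α(X, Y + u Q)` -/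
noncomputable def HD (S : Finset (ZMod p)) (u : ZMod p) (Q0 l M : ℕ) (d : ℕ → ℕ → ZMod p) :
    Polynomial (ZMod p)[X] :=
  ∑ β ∈ Finset.Icc (gg S) l, ∑ α ∈ Finset.Icc (gg S) M,
    C (C (d β α)) * (ee S β ^ Q0 * (ee S α).comp (X + C (C u * QQ S)))

theorem mem_mo (k : ℕ) (g : (ZMod p)[X]) : g ∈ mo p k ↔ g.Monic ∧ g.natDegree = k := by
  classical
  unfold mo
  rw [Finset.mem_image]
  constructor
  · rintro ⟨v, -, rfl⟩
    have h1 : (∑ i : Fin k, C (v i) * (X : (ZMod p)[X]) ^ (i : ℕ)).degree < (k : ℕ) := by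
      refine lt_of_le_of_lt (degree_sum_le _ _) ?_
      rw [Finset.sup_lt_iff (by exact WithBot.bot_lt_coe k)]
      intro i _
      refine lt_of_le_of_lt (degree_C_mul_X_pow_le _ _) ?_
      exact_mod_cast i.2
    exact ⟨monic_X_pow_add (by simpa using h1), by
      rw [natDegree_add_eq_left_of_degree_lt, natDegree_X_pow]
      rw [degree_X_pow]
      exact h1⟩
  · rintro ⟨hg, rfl⟩
    refine ⟨fun i => g.coeff i, Finset.mem_univ _, ?_⟩
    rw [Fin.sum_univ_eq_sum_range (fun i => C (g.coeff i) * (X : (ZMod p)[X]) ^ i)]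
    exact hg.as_sum.symm

end Pool.Agent.H24.W
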