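import Pool.Agent.H24.W.A9

/-!
# [H24 W A10] the sum over `K` is `O(Q0)`

`N_u` the number in `count_le`, `q = Q0^2`, `g = gg S`, `s = |S|`.  `∑_u N_u ≥ q - s`, and `N_u ≤ B := (q + (2g+1) Q0)/p`
for all `u`, so `∑_u (B - N_u) ≤ (2g+1) Q0 + s`.  `sk = ∑_u N_u ψ(u) = - ∑_u (B - N_u) ψ(u)` as `∑_u ψ(u) = 0`, `|ψ(u)| = 1`,
so `|sk| ≤ (2g+1) Q0 + s ≤ (s + 2g + 1) Q0`.
-/

namespace Pool.Agent.H24.W

open Polynomial

variable {p : ℕ} [Fact p.Prime]

theorem sk_le {K : Type} [Field K] [Fintype K] [Algebra (ZMod p) K] (ψ : AddChar (ZMod p) ℂ)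
    (hψ : ψ ≠ 1) (S : Finset (ZMod p)) (c : ZMod p → ZMod p) (t : ZMod p) (ht : t ≠ 0) (m : ℕ)
    (hK : Fintype.card K = (p ^ m) ^ 2) (hm : (gg S + 2) ^ 2 ≤ p ^ m) :
    ‖sk ψ S c t K‖ ≤ (p * (S.card + 2 * gg S + 1) : ℕ) * (p : ℝ) ^ m := by
  classical
  have hp : p.Prime := Fact.out
  have hp0 : (0 : ℝ) < p := by exact_mod_cast hp.pos
  have hp1 : (1 : ℝ) ≤ p := by exact_mod_cast hp.one_lt.le
  set A : Finset K := Finset.univ.filter fun x : K => ¬ ∃ a ∈ S, x = algebraMap (ZMod p) K a with hA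
  set tr : K → ZMod p := fun x => Algebra.trace (ZMod p) K (rf S c t x) with htr
  set Nu : ZMod p → ℕ := fun u => (A.filter fun x => tr x = u).card with hNu
  have hNle : ∀ u, (Nu u : ℝ) ≤ (((p : ℝ) ^ m) ^ 2 + (2 * gg S + 1) * (p : ℝ) ^ m) / p := by
    intro u
    rw [le_div_iff₀ hp0, mul_comm]
    have h1 := count_le S c t ht m hK hm u
    have h2 : Nat.card {x : K // (¬ ∃ a ∈ S, x = algebraMap (ZMod p) K a) ∧
        Algebra.trace (ZMod p) K (rf S c t x) = u} = Nu u := by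
      rw [Nat.card_eq_fintype_card, Fintype.card_subtype]
      show _ = (A.filter fun x => tr x = u).card
      rw [hA, Finset.filter_filter]
    rw [h2] at h1
    exact_mod_cast h1
  set B : ℝ := (((p : ℝ) ^ m) ^ 2 + (2 * gg S + 1) * (p : ℝ) ^ m) / p with hB
  -- sk as a sum over the values of the trace
  have hsk : sk ψ S c t K = ∑ u : ZMod p, (Nu u : ℂ) * ψ u := by
    have h1 : sk ψ S c t K = ∑ x ∈ A, ψ (tr x) := by
      unfold sk
      rw [hA, Finset.sum_filter]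
      refine Finset.sum_congr rfl fun x _ => ?_
      by_cases hx : ∃ a ∈ S, x = algebraMap (ZMod p) K a
      · rw [if_pos hx, if_neg (not_not.mpr hx)]
      · rw [if_neg hx, if_pos hx]
    rw [h1, ← Finset.sum_fiberwise A tr (fun x => ψ (tr x))]
    refine Finset.sum_congr rfl fun u _ => ?_
    rw [Finset.sum_congr rfl fun x hx => by rw [(Finset.mem_filter.mp hx).2], Finset.sum_const,
      nsmul_eq_mul]
  -- total number
  have htot : ((p : ℝ) ^ m) ^ 2 - S.card ≤ ∑ u : ZMod p, (Nu u : ℝ) := by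
    have h1 : ∑ u : ZMod p, Nu u = A.card := by
      rw [Finset.card_eq_sum_card_fiberwise (f := tr) (s := A) (t := Finset.univ)
        (fun x _ => Finset.mem_coe.mpr (Finset.mem_univ _))]
    have h2 : Fintype.card K ≤ A.card + S.card := by
      have h3 : (Finset.univ : Finset K) ⊆ A ∪ S.image (algebraMap (ZMod p) K) := by
        intro x _
        rw [Finset.mem_union]
        by_cases hx : ∃ a ∈ S, x = algebraMap (ZMod p) K a
        · right
          obtain ⟨a, ha, hxa⟩ := hx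
          rw [Finset.mem_image]
          exact ⟨a, ha, hxa.symm⟩
        · left
          rw [hA, Finset.mem_filter]
          exact ⟨Finset.mem_univ _, hx⟩
      calc Fintype.card K = (Finset.univ : Finset K).card := rfl
        _ ≤ (A ∪ S.image (algebraMap (ZMod p) K)).card := Finset.card_le_card h3
        _ ≤ A.card + (S.image (algebraMap (ZMod p) K)).card := Finset.card_union_le _ _
        _ ≤ A.card + S.card := Nat.add_le_add_left Finset.card_image_le _
    rw [hK, ← h1] at h2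
    have h4 : ((p : ℝ) ^ m) ^ 2 ≤ ∑ u : ZMod p, (Nu u : ℝ) + S.card := by exact_mod_cast h2
    linarith
  have hψ0 : ∑ u : ZMod p, ψ u = 0 := AddChar.sum_eq_zero_of_ne_one hψ
  have hneg : sk ψ S c t K = -∑ u : ZMod p, ((B - Nu u : ℝ) : ℂ) * ψ u := by
    rw [hsk]
    have h1 : ∑ u : ZMod p, ((B - Nu u : ℝ) : ℂ) * ψ u =
        (B : ℂ) * ∑ u : ZMod p, ψ u - ∑ u : ZMod p, (Nu u : ℂ) * ψ u := by
      rw [Finset.mul_sum, ← Finset.sum_sub_distrib]
      refine Finset.sum_congr rfl fun u _ => ?_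
      push_cast
      ring
    rw [h1, hψ0]
    ring
  have hbound : ‖sk ψ S c t K‖ ≤ ∑ u : ZMod p, (B - Nu u) := by
    rw [hneg, norm_neg]
    refine (norm_sum_le _ _).trans (Finset.sum_le_sum fun u _ => ?_)
    rw [norm_mul, AddChar.norm_apply, mul_one, Complex.norm_real, Real.norm_of_nonneg]
    have := hNle u
    linarith
  refine hbound.trans ?_
  rw [Finset.sum_sub_distrib, Finset.sum_const, Finset.card_univ, ZMod.card, nsmul_eq_mul]
  have hpB : (p : ℝ) * B = ((p : ℝ) ^ m) ^ 2 + (2 * gg S + 1) * (p : ℝ) ^ m := by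
    rw [hB]
    field_simp
  rw [hpB]
  have hpm : (1 : ℝ) ≤ (p : ℝ) ^ m := one_le_pow₀ hp1
  have h5 : (S.card : ℝ) ≤ S.card * (p : ℝ) ^ m := le_mul_of_one_le_right (Nat.cast_nonneg _) hpm
  have h6 : ((S.card : ℝ) + 2 * gg S + 1) * (p : ℝ) ^ m ≤
      p * (((S.card : ℝ) + 2 * gg S + 1) * (p : ℝ) ^ m) :=
    le_mul_of_one_le_left (by positivity) hp1
  push_cast
  nlinarith [htot, h5, h6]

end Pool.Agent.H24.W
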