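import Pool.Agent.H24.W.Def
import Pool.Agent.H19.WE.WC

/-!
# [H24 W A9] Stepanov's bound

From `Pool.Agent.H19.WE.count` (polynomial form of Stepanov's method) with `N = HH S c t`, `Q = QQ S` over `K`:
`#{x : Q(x) ≠ 0, Tr R(x) = u} ≤ p^(m-1) p^m + (2 s + 1) p^m`, and `p (2 s + 1) ≤ 2 gg S + 1`.
-/

namespace Pool.Agent.H24.W

open Polynomial

variable {p : ℕ} [Fact p.Prime]

private theorem natDegree_QQ (S : Finset (ZMod p)) : (QQ S).natDegree = S.card := by
  unfold QQ
  rw [natDegree_prod_of_monic _ _ fun a _ => monic_X_sub_C a]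
  simp

private theorem monic_QQ (S : Finset (ZMod p)) : (QQ S).Monic :=
  monic_prod_of_monic _ _ fun a _ => monic_X_sub_C a

private theorem natDegree_HH (S : Finset (ZMod p)) (c : ZMod p → ZMod p) (t : ZMod p) (ht : t ≠ 0) :
    (HH S c t).natDegree = S.card + 1 := by
  unfold HH
  have h1 : (C t * X * QQ S).natDegree = S.card + 1 := by
    rw [natDegree_mul (mul_ne_zero (C_ne_zero.mpr ht) X_ne_zero) (monic_QQ S).ne_zero,
      natDegree_C_mul_X t ht, natDegree_QQ]
    ring
  have h2 : (∑ a ∈ S, C (c a) * QQ (S.erase a)).natDegree ≤ S.card := by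
    apply natDegree_sum_le_of_forall_le
    intro a _
    refine (natDegree_C_mul_le _ _).trans ?_
    rw [natDegree_QQ]
    exact Finset.card_erase_le
  rw [natDegree_add_eq_left_of_natDegree_lt, h1]
  rw [h1]
  omega

private theorem aeval_QQ {K : Type} [Field K] [Algebra (ZMod p) K] (S : Finset (ZMod p)) (x : K) :
    ((QQ S).map (algebraMap (ZMod p) K)).eval x = ∏ a ∈ S, (x - algebraMap (ZMod p) K a) := by
  unfold QQ
  rw [Polynomial.map_prod, eval_prod]
  refine Finset.prod_congr rfl fun a _ => ?_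
  simp

private theorem ratio {K : Type} [Field K] [Algebra (ZMod p) K] (S : Finset (ZMod p))
    (c : ZMod p → ZMod p) (t : ZMod p) (x : K)
    (hx : ((QQ S).map (algebraMap (ZMod p) K)).eval x ≠ 0) :
    ((HH S c t).map (algebraMap (ZMod p) K)).eval x / ((QQ S).map (algebraMap (ZMod p) K)).eval x =
      rf S c t x := by
  classical
  rw [div_eq_iff hx]
  have hx' := hx
  rw [aeval_QQ] at hx'
  unfold HH rf
  rw [Polynomial.map_add, Polynomial.map_mul, Polynomial.map_mul, Polynomial.map_sum, eval_add,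
    eval_mul, eval_mul, eval_finsetSum, add_mul, Finset.sum_mul]
  congr 1
  · simp
  · refine Finset.sum_congr rfl fun a ha => ?_
    rw [Polynomial.map_mul, eval_mul, aeval_QQ, aeval_QQ, ← Finset.mul_prod_erase S _ ha]
    have h0 : x - algebraMap (ZMod p) K a ≠ 0 := Finset.prod_ne_zero_iff.mp hx' a ha
    simp only [map_C, eval_C]
    field_simp

private theorem aux_ineq (p s : ℕ) (hp : 2 ≤ p) :
    p * (2 * s + 1) ≤ 2 * ((s * p + 1) * (p - 1)) + 1 := by
  obtain ⟨r, rfl⟩ : ∃ r, p = r + 2 := ⟨p - 2, by omega⟩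
  rw [show r + 2 - 1 = r + 1 by omega]
  have : 0 ≤ s * r * r + s * r := Nat.zero_le _
  nlinarith

theorem count_le {K : Type} [Field K] [Fintype K] [Algebra (ZMod p) K] (S : Finset (ZMod p))
    (c : ZMod p → ZMod p) (t : ZMod p) (ht : t ≠ 0) (m : ℕ) (hK : Fintype.card K = (p ^ m) ^ 2)
    (hm : (gg S + 2) ^ 2 ≤ p ^ m) (u : ZMod p) :
    p * Nat.card {x : K // (¬ ∃ a ∈ S, x = algebraMap (ZMod p) K a) ∧
      Algebra.trace (ZMod p) K (rf S c t x) = u} ≤ (p ^ m) ^ 2 + (2 * gg S + 1) * p ^ m := by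
  classical
  have hp : p.Prime := Fact.out
  have hm1 : 1 ≤ m := by
    by_contra h0
    have h1 : m = 0 := by omega
    rw [h1, pow_zero] at hm
    nlinarith [hm, Nat.zero_le (gg S)]
  have hchar : CharP K p := by
    have : CharP (ZMod p) p := ZMod.charP p
    exact charP_of_injective_algebraMap (algebraMap (ZMod p) K).injective p
  have hinj := (algebraMap (ZMod p) K).injective
  have hfin : Module.finrank (ZMod p) K = 2 * m := by
    have h1 := Module.card_eq_pow_finrank (K := ZMod p) (V := K)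
    rw [hK, ZMod.card, ← pow_mul] at h1
    have := Nat.pow_right_injective hp.two_le h1
    omega
  have hN : ((HH S c t).map (algebraMap (ZMod p) K)).natDegree = S.card + 1 := by
    rw [natDegree_map_eq_of_injective hinj, natDegree_HH S c t ht]
  have hQ : ((QQ S).map (algebraMap (ZMod p) K)).natDegree = S.card := by
    rw [natDegree_map_eq_of_injective hinj, natDegree_QQ]
  have hQ0 : (QQ S).map (algebraMap (ZMod p) K) ≠ 0 := (monic_QQ S).map _ |>.ne_zero
  have hu : (algebraMap (ZMod p) K u) ^ p = algebraMap (ZMod p) K u := by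
    rw [← map_pow, ZMod.pow_card]
  have key := Pool.Agent.H19.WE.count (K := K) p m S.card hm1 hK _ _ hN hQ hQ0 (algebraMap (ZMod p) K u) hu
  have hcard : Nat.card {x : K // (¬ ∃ a ∈ S, x = algebraMap (ZMod p) K a) ∧
      Algebra.trace (ZMod p) K (rf S c t x) = u} ≤
      (Finset.univ.filter fun x : K => ((QQ S).map (algebraMap (ZMod p) K)).eval x ≠ 0 ∧
      ∑ i ∈ Finset.range (2 * m), (((HH S c t).map (algebraMap (ZMod p) K)).eval x /
        ((QQ S).map (algebraMap (ZMod p) K)).eval x) ^ p ^ i = algebraMap (ZMod p) K u).card := by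
    rw [Nat.card_eq_fintype_card, Fintype.card_subtype]
    apply Finset.card_le_card
    intro x hx
    rw [Finset.mem_filter] at hx ⊢
    have hne : ((QQ S).map (algebraMap (ZMod p) K)).eval x ≠ 0 := by
      rw [aeval_QQ, Finset.prod_ne_zero_iff]
      intro a ha h0
      exact hx.2.1 ⟨a, ha, sub_eq_zero.mp h0⟩
    refine ⟨Finset.mem_univ _, hne, ?_⟩
    rw [ratio S c t x hne, ← hx.2.2, FiniteField.algebraMap_trace_eq_sum_pow, hfin, Nat.card_zmod]
  have h2 := hcard.trans key
  have hpm : p * p ^ (m - 1) = p ^ m := by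
    rw [← pow_succ']
    congr 1
    omega
  have h3 : p * (2 * S.card + 1) ≤ 2 * gg S + 1 := by
    unfold gg bb
    exact aux_ineq p S.card hp.two_le
  calc p * Nat.card {x : K // (¬ ∃ a ∈ S, x = algebraMap (ZMod p) K a) ∧
      Algebra.trace (ZMod p) K (rf S c t x) = u}
      ≤ p * (p ^ (m - 1) * p ^ m + (2 * S.card + 1) * p ^ m) := Nat.mul_le_mul_left _ h2
    _ = (p * p ^ (m - 1)) * p ^ m + (p * (2 * S.card + 1)) * p ^ m := by ring
    _ = (p ^ m) ^ 2 + (p * (2 * S.card + 1)) * p ^ m := by rw [hpm]; ring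
    _ ≤ (p ^ m) ^ 2 + (2 * gg S + 1) * p ^ m := by
        apply Nat.add_le_add_left
        exact Nat.mul_le_mul_right _ h3

end Pool.Agent.H24.W
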