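import Pool.Agent.H24.W.Def

/-!
# [H24 W B1] `chi` is multiplicative

`nextCoeff (g h) = nextCoeff g + nextCoeff h` for monic polynomials (`Monic.nextCoeff_mul`),
`(g h)'/(g h) = g'/g + h'/h` at `a` when `g(a) h(a) ≠ 0` (`derivative_mul`, `eval_mul`, `field_simp`), `ψ` turns
sums into products (`AddChar.map_add_eq_mul`).
-/

namespace Pool.Agent.H24.W

open Polynomial

variable {p : ℕ} [Fact p.Prime]

theorem chi_one (ψ : AddChar (ZMod p) ℂ) (S : Finset (ZMod p)) (c : ZMod p → ZMod p)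
    (t : ZMod p) : chi ψ S c t 1 = 1 := by
  unfold chi
  rw [if_neg (by simp)]
  have h : (1 : (ZMod p)[X]).nextCoeff = 0 := by simp [nextCoeff]
  simp [h]

theorem chi_mul (ψ : AddChar (ZMod p) ℂ) (S : Finset (ZMod p)) (c : ZMod p → ZMod p)
    (t : ZMod p) {g h : (ZMod p)[X]} (hg : g.Monic) (hh : h.Monic) :
    chi ψ S c t (g * h) = chi ψ S c t g * chi ψ S c t h := by
  unfold chi
  by_cases h1 : ∃ a ∈ S, g.eval a = 0
  · rw [if_pos h1, zero_mul, if_pos]
    obtain ⟨a, ha, h0⟩ := h1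
    exact ⟨a, ha, by rw [eval_mul, h0, zero_mul]⟩
  by_cases h2 : ∃ a ∈ S, h.eval a = 0
  · rw [if_pos h2, mul_zero, if_pos]
    obtain ⟨a, ha, h0⟩ := h2
    exact ⟨a, ha, by rw [eval_mul, h0, mul_zero]⟩
  have h3 : ¬ ∃ a ∈ S, (g * h).eval a = 0 := by
    rintro ⟨a, ha, h0⟩
    rw [eval_mul, mul_eq_zero] at h0
    rcases h0 with h0 | h0
    · exact h1 ⟨a, ha, h0⟩
    · exact h2 ⟨a, ha, h0⟩
  rw [if_neg h1, if_neg h2, if_neg h3, ← AddChar.map_add_eq_mul]
  congr 1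
  rw [Monic.nextCoeff_mul hg hh]
  have h4 : ∑ a ∈ S, c a * ((g * h).derivative.eval a / (g * h).eval a) =
      ∑ a ∈ S, c a * (g.derivative.eval a / g.eval a) +
        ∑ a ∈ S, c a * (h.derivative.eval a / h.eval a) := by
    rw [← Finset.sum_add_distrib]
    refine Finset.sum_congr rfl fun a ha => ?_
    have h5 : g.eval a ≠ 0 := fun h => h1 ⟨a, ha, h⟩
    have h6 : h.eval a ≠ 0 := fun h => h2 ⟨a, ha, h⟩
    rw [derivative_mul, eval_add, eval_mul, eval_mul, eval_mul]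
    field_simp
  rw [h4]
  ring

theorem chi_pow (ψ : AddChar (ZMod p) ℂ) (S : Finset (ZMod p)) (c : ZMod p → ZMod p)
    (t : ZMod p) {g : (ZMod p)[X]} (hg : g.Monic) (n : ℕ) :
    chi ψ S c t (g ^ n) = chi ψ S c t g ^ n := by
  induction n with
  | zero => rw [pow_zero, pow_zero, chi_one]
  | succ n ih => rw [pow_succ, pow_succ, chi_mul ψ S c t (hg.pow n) hg, ih]

/-- the linear polynomials at the poles -/
theorem chi_pole (ψ : AddChar (ZMod p) ℂ) (S : Finset (ZMod p)) (c : ZMod p → ZMod p)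
    (t : ZMod p) {a : ZMod p} (ha : a ∈ S) : chi ψ S c t (X - C a) = 0 := by
  unfold chi
  rw [if_pos ⟨a, ha, by simp⟩]

end Pool.Agent.H24.W
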