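import Pool.Agent.H24.W.B1

/-!
# [H24 W B2] the L-function is a polynomial of degree `≤ 2 |S|`

`bk_zero`: the only monic polynomial of degree `0` is `1`, `chi 1 = 1` (`ψ 0 = 1`; `nextCoeff 1 = 0`, derivative `0`).
`bk_van`: `k ≥ 2 s + 1`, `h = X^(k-1-2s) * (QQ S)^2`, monic of degree `k - 1`, `h(a) = h'(a) = 0` for `a ∈ S`.
`g ↦ g + h` is a bijection of `mo p k` (inverse `g ↦ g - h`; `mem_mo`; `h.natDegree = k - 1 < k`), and
`chi (g + h) = ψ(-t) chi g`: the values and the derivatives at `S` do not change and `nextCoeff`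
(`= coeff (k - 1)`) goes up by `1`.  So `bk k = ψ(-t) * bk k`, and `ψ(-t) ≠ 1` (`ψ(-t) ψ(t) = 1`), so `bk k = 0`.
-/

namespace Pool.Agent.H24.W

open Polynomial

variable {p : ℕ} [Fact p.Prime]

theorem bk_zero (ψ : AddChar (ZMod p) ℂ) (S : Finset (ZMod p)) (c : ZMod p → ZMod p)
    (t : ZMod p) : bk ψ S c t 0 = 1 := by
  have h : mo p 0 = {1} := by
    ext g
    rw [mem_mo, Finset.mem_singleton]
    constructor
    · rintro ⟨h1, h2⟩
      exact eq_one_of_monic_natDegree_zero h1 h2
    · rintro rfl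
      exact ⟨monic_one, natDegree_one⟩
  rw [bk, h, Finset.sum_singleton, chi_one]

theorem bk_van (ψ : AddChar (ZMod p) ℂ) (S : Finset (ZMod p)) (c : ZMod p → ZMod p)
    (t : ZMod p) (ht : ψ t ≠ 1) (k : ℕ) (hk : 2 * S.card + 1 ≤ k) : bk ψ S c t k = 0 := by
  classical
  obtain ⟨h, hh⟩ : ∃ h : (ZMod p)[X], h = X ^ (k - 1 - 2 * S.card) * QQ S ^ 2 := ⟨_, rfl⟩
  have hQm : (QQ S).Monic := monic_prod_of_monic _ _ fun a _ => monic_X_sub_C a
  have hQd : (QQ S).natDegree = S.card := by
    rw [QQ, natDegree_prod_of_monic _ _ fun a _ => monic_X_sub_C a]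
    simp
  have hm : h.Monic := by
    rw [hh]
    exact (monic_X_pow _).mul (hQm.pow 2)
  have hd : h.natDegree = k - 1 := by
    rw [hh, (monic_X_pow _).natDegree_mul (hQm.pow 2), natDegree_X_pow, hQm.natDegree_pow, hQd]
    omega
  have hQ0 : ∀ a ∈ S, (QQ S).eval a = 0 := by
    intro a ha
    rw [QQ, eval_prod]
    exact Finset.prod_eq_zero ha (by simp)
  have h0 : ∀ a ∈ S, h.eval a = 0 := by
    intro a ha
    rw [hh, eval_mul, eval_pow (p := QQ S), hQ0 a ha]
    simp
  have h1 : ∀ a ∈ S, h.derivative.eval a = 0 := by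
    intro a ha
    rw [hh, sq, derivative_mul, derivative_mul]
    simp only [eval_add, eval_mul, hQ0 a ha]
    simp
  have key : ∀ g ∈ mo p k, chi ψ S c t (g + h) = ψ (-t) * chi ψ S c t g := by
    intro g hg
    obtain ⟨hg1, hg2⟩ := (mem_mo k g).mp hg
    have hgd : (g + h).natDegree = k := by
      rw [natDegree_add_eq_left_of_natDegree_lt (by rw [hd, hg2]; omega), hg2]
    unfold chi
    by_cases h2 : ∃ a ∈ S, g.eval a = 0
    · rw [if_pos h2, mul_zero, if_pos]
      obtain ⟨a, ha, h3⟩ := h2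
      exact ⟨a, ha, by rw [eval_add, h3, h0 a ha, add_zero]⟩
    · have h3 : ¬ ∃ a ∈ S, (g + h).eval a = 0 := by
        rintro ⟨a, ha, h3⟩
        rw [eval_add, h0 a ha, add_zero] at h3
        exact h2 ⟨a, ha, h3⟩
      rw [if_neg h2, if_neg h3, ← AddChar.map_add_eq_mul]
      congr 1
      have h4 : (g + h).nextCoeff = g.nextCoeff + 1 := by
        rw [nextCoeff_of_natDegree_pos (by omega), nextCoeff_of_natDegree_pos (by omega), hgd,
          hg2, coeff_add]
        congr 1
        rw [← hd]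
        exact hm
      have h5 : ∑ a ∈ S, c a * ((g + h).derivative.eval a / (g + h).eval a) =
          ∑ a ∈ S, c a * (g.derivative.eval a / g.eval a) := by
        refine Finset.sum_congr rfl fun a ha => ?_
        rw [derivative_add, eval_add, eval_add, h0 a ha, h1 a ha, add_zero, add_zero]
      rw [h4, h5]
      ring
  have hsum : bk ψ S c t k = ψ (-t) * bk ψ S c t k := by
    unfold bk
    rw [Finset.mul_sum]
    refine (Finset.sum_bij' (fun g _ => g + h) (fun g _ => g - h) ?_ ?_ ?_ ?_ ?_).symm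
    · intro g hg
      obtain ⟨hg1, hg2⟩ := (mem_mo k g).mp hg
      rw [mem_mo]
      refine ⟨hg1.add_of_left ?_, ?_⟩
      · exact degree_lt_degree (by rw [hd, hg2]; omega)
      · rw [natDegree_add_eq_left_of_natDegree_lt (by rw [hd, hg2]; omega), hg2]
    · intro g hg
      obtain ⟨hg1, hg2⟩ := (mem_mo k g).mp hg
      rw [mem_mo]
      refine ⟨hg1.sub_of_left ?_, ?_⟩
      · exact degree_lt_degree (by rw [hd, hg2]; omega)
      · rw [natDegree_sub_eq_left_of_natDegree_lt (by rw [hd, hg2]; omega), hg2]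
    · intro g _
      exact add_sub_cancel_right g h
    · intro g _
      exact sub_add_cancel g h
    · intro g hg
      exact (key g hg).symm
  have h6 : ψ (-t) ≠ 1 := by
    intro h7
    apply ht
    have h8 : ψ (-t) * ψ t = 1 := by
      rw [← AddChar.map_add_eq_mul, neg_add_cancel, AddChar.map_zero_eq_one]
    rw [h7, one_mul] at h8
    exact h8
  have h9 : (1 - ψ (-t)) * bk ψ S c t k = 0 := by
    rw [sub_mul, one_mul, ← hsum, sub_self]
  rcases mul_eq_zero.mp h9 with h10 | h10
  · exact absurd (sub_eq_zero.mp h10).symm h6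
  · exact h10

end Pool.Agent.H24.W
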