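import Pool.Agent.H24.W.B1
import Pool.Agent.H24.W.B3

/-!
# [H24 W B4] Newton's identity `k b_k = ∑_{n=1}^k t_n b_{k-n}`

`k b_k = ∑_{g ∈ mo k} k chi g = ∑_g ∑_{d ∈ [1,k]} ∑_{P irreducible, deg d} ∑_{r ∈ [1,k], P^r ∣ g} d chi g`
(`deg_sum`).  For fixed `d, P, r`: `∑_{g ∈ mo k, P^r ∣ g} chi g = chi(P)^r b_{k - r d}` if `r d ≤ k` (bijection
`h ↦ P^r h` from `mo (k - r d)`, `chi_mul`, `chi_pow`; the quotient of monic polynomials is monic:
`Monic.of_mul_monic_left`), and `0` if `r d > k` (no such `g ≠ 0`).  So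
`k b_k = ∑_{(d, r), 1 ≤ d, 1 ≤ r, r d ≤ k} ∑_P d chi(P)^r b_{k - r d}`; collect `n = r d`:
`= ∑_{n=1}^k (∑_{d ∣ n} ∑_P d chi(P)^(n/d)) b_{k-n}`.
-/

namespace Pool.Agent.H24.W

open Polynomial

variable {p : ℕ} [Fact p.Prime]

open Classical in
private theorem inner (ψ : AddChar (ZMod p) ℂ) (S : Finset (ZMod p)) (c : ZMod p → ZMod p)
    (t : ZMod p) (k d r : ℕ) (P : (ZMod p)[X]) (hP : P ∈ mo p d) :
    ∑ g ∈ (mo p k).filter (fun g => P ^ r ∣ g), chi ψ S c t g =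
      if r * d ≤ k then chi ψ S c t P ^ r * bk ψ S c t (k - r * d) else 0 := by
  obtain ⟨hPm, hPd⟩ := (mem_mo d P).mp hP
  have hPr : (P ^ r).Monic := hPm.pow r
  have hPrd : (P ^ r).natDegree = r * d := by rw [hPm.natDegree_pow, hPd]
  split_ifs with h
  · unfold bk
    rw [Finset.mul_sum]
    refine (Finset.sum_bij (fun h _ => P ^ r * h) ?_ ?_ ?_ ?_).symm
    · intro f hf
      obtain ⟨hf1, hf2⟩ := (mem_mo _ f).mp hf
      rw [Finset.mem_filter, mem_mo]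
      refine ⟨⟨hPr.mul hf1, ?_⟩, dvd_mul_right _ _⟩
      rw [hPr.natDegree_mul hf1, hPrd, hf2]
      omega
    · intro f _ f' _ hff
      exact mul_left_cancel₀ hPr.ne_zero hff
    · intro g hg
      rw [Finset.mem_filter, mem_mo] at hg
      obtain ⟨⟨hg1, hg2⟩, f, rfl⟩ := hg
      have hf1 : f.Monic := hPr.of_mul_monic_left hg1
      refine ⟨f, ?_, rfl⟩
      rw [mem_mo]
      refine ⟨hf1, ?_⟩
      rw [hPr.natDegree_mul hf1, hPrd] at hg2
      omega
    · intro f hf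
      obtain ⟨hf1, hf2⟩ := (mem_mo _ f).mp hf
      rw [chi_mul ψ S c t hPr hf1, chi_pow ψ S c t hPm]
  · refine Finset.sum_eq_zero fun g hg => ?_
    exfalso
    rw [Finset.mem_filter, mem_mo] at hg
    have h1 := natDegree_le_of_dvd hg.2 hg.1.1.ne_zero
    rw [hPrd, hg.1.2] at h1
    exact h h1

theorem newton (ψ : AddChar (ZMod p) ℂ) (S : Finset (ZMod p)) (c : ZMod p → ZMod p)
    (t : ZMod p) (k : ℕ) :
    (k : ℂ) * bk ψ S c t k = ∑ n ∈ Finset.Icc 1 k, tn ψ S c t n * bk ψ S c t (k - n) := by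
  classical
  have h1 : (k : ℂ) * bk ψ S c t k = ∑ d ∈ Finset.Icc 1 k, ∑ P ∈ (mo p d).filter Irreducible,
      ∑ r ∈ Finset.Icc 1 k, (d : ℂ) *
        (if r * d ≤ k then chi ψ S c t P ^ r * bk ψ S c t (k - r * d) else 0) := by
    have h2 : (k : ℂ) * bk ψ S c t k = ∑ g ∈ mo p k, ∑ d ∈ Finset.Icc 1 k,
        ∑ P ∈ (mo p d).filter Irreducible, ∑ r ∈ Finset.Icc 1 k,
          (if P ^ r ∣ g then (d : ℂ) * chi ψ S c t g else 0) := by
      unfold bk
      rw [Finset.mul_sum]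
      refine Finset.sum_congr rfl fun g hg => ?_
      have h3 : (k : ℂ) = ∑ d ∈ Finset.Icc 1 k, ∑ P ∈ (mo p d).filter Irreducible,
          (d : ℂ) * (((Finset.Icc 1 k).filter (fun r => P ^ r ∣ g)).card : ℂ) := by
        have h4 := deg_sum k g hg
        exact_mod_cast h4
      nth_rewrite 1 [h3]
      rw [Finset.sum_mul]
      refine Finset.sum_congr rfl fun d _ => ?_
      rw [Finset.sum_mul]
      refine Finset.sum_congr rfl fun P _ => ?_
      rw [← Finset.sum_filter, Finset.sum_const, nsmul_eq_mul]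
      ring
    rw [h2, Finset.sum_comm]
    refine Finset.sum_congr rfl fun d hd => ?_
    rw [Finset.sum_comm]
    refine Finset.sum_congr rfl fun P hP => ?_
    rw [Finset.sum_comm]
    refine Finset.sum_congr rfl fun r hr => ?_
    rw [← inner ψ S c t k d r P (Finset.mem_filter.mp hP).1, Finset.mul_sum,
      Finset.sum_filter]
  rw [h1]
  have h5 : ∀ d ∈ Finset.Icc 1 k, ∑ P ∈ (mo p d).filter Irreducible,
      ∑ r ∈ Finset.Icc 1 k, (d : ℂ) *
        (if r * d ≤ k then chi ψ S c t P ^ r * bk ψ S c t (k - r * d) else 0) =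
      ∑ r ∈ Finset.Icc 1 k, (if r * d ≤ k then (∑ P ∈ (mo p d).filter Irreducible,
        (d : ℂ) * chi ψ S c t P ^ r) * bk ψ S c t (k - r * d) else 0) := by
    intro d _
    rw [Finset.sum_comm]
    refine Finset.sum_congr rfl fun r _ => ?_
    split_ifs with h6
    · rw [Finset.sum_mul]
      refine Finset.sum_congr rfl fun P _ => ?_
      ring
    · simp
  rw [Finset.sum_congr rfl h5, ← Finset.sum_product', ← Finset.sum_filter]
  unfold tn
  have h7 : ∀ n ∈ Finset.Icc 1 k, (∑ d ∈ n.divisors, ∑ P ∈ (mo p d).filter Irreducible,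
      (d : ℂ) * chi ψ S c t P ^ (n / d)) * bk ψ S c t (k - n) =
      ∑ d ∈ n.divisors, (∑ P ∈ (mo p d).filter Irreducible,
        (d : ℂ) * chi ψ S c t P ^ (n / d)) * bk ψ S c t (k - n) := fun n _ => by
    rw [Finset.sum_mul]
  rw [Finset.sum_congr rfl h7, Finset.sum_sigma']
  refine Finset.sum_bij' (fun x _ => ⟨x.2 * x.1, x.1⟩) (fun y _ => (y.2, y.1 / y.2)) ?_ ?_ ?_ ?_ ?_
  · rintro ⟨d, r⟩ hx
    rw [Finset.mem_filter, Finset.mem_product, Finset.mem_Icc, Finset.mem_Icc] at hx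
    simp only at hx
    obtain ⟨⟨⟨hd1, hd2⟩, hr1, hr2⟩, hrd⟩ := hx
    rw [Finset.mem_sigma, Finset.mem_Icc, Nat.mem_divisors]
    have h8 : 0 < r * d := Nat.mul_pos hr1 hd1
    exact ⟨⟨h8, hrd⟩, dvd_mul_left d r, h8.ne'⟩
  · rintro ⟨n, d⟩ hx
    rw [Finset.mem_sigma, Finset.mem_Icc, Nat.mem_divisors] at hx
    obtain ⟨⟨hn1, hn2⟩, hdn, hn0⟩ := hx
    simp only at hn1 hn2 hdn hn0
    have hdpos : 0 < d := Nat.pos_of_dvd_of_pos hdn hn1
    have hdle : d ≤ n := Nat.le_of_dvd hn1 hdn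
    have hq : 0 < n / d := Nat.div_pos hdle hdpos
    have hq2 : n / d ≤ n := Nat.div_le_self n d
    rw [Finset.mem_filter, Finset.mem_product, Finset.mem_Icc, Finset.mem_Icc]
    simp only
    rw [Nat.div_mul_cancel hdn]
    exact ⟨⟨⟨hdpos, by omega⟩, hq, by omega⟩, hn2⟩
  · rintro ⟨d, r⟩ hx
    rw [Finset.mem_filter, Finset.mem_product, Finset.mem_Icc, Finset.mem_Icc] at hx
    simp only at hx
    obtain ⟨⟨⟨hd1, hd2⟩, hr1, hr2⟩, hrd⟩ := hx
    simp only [Prod.mk.injEq, true_and]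
    exact Nat.mul_div_cancel r hd1
  · rintro ⟨n, d⟩ hx
    rw [Finset.mem_sigma, Finset.mem_Icc, Nat.mem_divisors] at hx
    obtain ⟨⟨hn1, hn2⟩, hdn, hn0⟩ := hx
    simp only at hn1 hn2 hdn hn0
    simp only [Sigma.mk.injEq, heq_eq_eq, and_true]
    exact Nat.div_mul_cancel hdn
  · rintro ⟨d, r⟩ hx
    rw [Finset.mem_filter, Finset.mem_product, Finset.mem_Icc, Finset.mem_Icc] at hx
    simp only at hx
    obtain ⟨⟨⟨hd1, hd2⟩, hr1, hr2⟩, hrd⟩ := hx
    simp only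
    rw [Nat.mul_div_cancel r hd1]

end Pool.Agent.H24.W
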