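import Pool.Agent.H24.W.A10
import Pool.Agent.H24.W.B2
import Pool.Agent.H24.W.B4
import Pool.Agent.H24.W.B6
import Pool.Agent.H24.W.B7
import Pool.Agent.H24.W.C1

/-!
# [H24 W D1] Weil's bound when there is a pole at infinity (`t ≠ 0`)

`ψ t ≠ 1` implies `t ≠ 0`, `ψ ≠ 1`.  `power_sums` with `D = 2 s`, `b = bk` (`bk_zero`, `bk_van`), `T = tn`
(`newton`): `tn n = -∑_{i : Fin (2 s)} ω_i^n` for `n ≥ 1`.  For `m` with `(gg S + 2)^2 ≤ p^m` (all `m ≥ m0`; `m0 ≥ 1`)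
the field `K = GaloisField p (2 m)` has `(p^m)^2` elements and `[K : F_p] = 2 m`, so
`|∑ ω_i^(2m)| = |tn (2 m)| = |sk K| ≤ C (√p)^(2 m)` (`sk_eq`, `sk_le`; `(√p)^(2m) = p^m`).  `bound_of_power_sums`:
`|ω_i| ≤ √p`.  `sk (ZMod p) = tn 1` (`finrank = 1`; `Algebra.trace_self_apply`, `algebraMap` the identity) gives
`|∑| = |∑ ω_i| ≤ 2 s √p`.
-/

namespace Pool.Agent.H24.W

open Polynomial

variable {p : ℕ} [Fact p.Prime]

theorem weil_inf (ψ : AddChar (ZMod p) ℂ) (S : Finset (ZMod p)) (c : ZMod p → ZMod p)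
    (t : ZMod p) (ht : ψ t ≠ 1) :
    ‖∑ x ∈ Finset.univ \ S, ψ (∑ a ∈ S, c a * (x - a)⁻¹ + t * x)‖ ≤
      2 * S.card * √(p : ℝ) := by
  classical
  have hpp : p.Prime := Fact.out
  have hp1 : 1 < p := hpp.one_lt
  have ht0 : t ≠ 0 := by
    rintro rfl
    exact ht (AddChar.map_zero_eq_one ψ)
  have hψ : ψ ≠ 1 := by
    rintro rfl
    exact ht (AddChar.one_apply t)
  have hp0 : (0 : ℝ) < p := by exact_mod_cast hpp.pos
  obtain ⟨ω, hω⟩ := power_sums (2 * S.card) (bk ψ S c t) (tn ψ S c t) (bk_zero ψ S c t)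
    (fun k hk => bk_van ψ S c t ht k hk) (newton ψ S c t)
  obtain ⟨m0, hm0⟩ : ∃ m0 : ℕ, (gg S + 2) ^ 2 ≤ p ^ m0 :=
    ⟨(gg S + 2) ^ 2, (Nat.lt_pow_self hp1).le⟩
  have hbound : ∀ m ≥ m0 + 1, ‖∑ i, ω i ^ (2 * m)‖ ≤
      ((p * (S.card + 2 * gg S + 1) : ℕ) : ℝ) * √(p : ℝ) ^ (2 * m) := by
    intro m hm
    have hmpos : 2 * m ≠ 0 := by omega
    have hfr : Module.finrank (ZMod p) (GaloisField p (2 * m)) = 2 * m :=
      GaloisField.finrank p hmpos
    let iL : Fintype (GaloisField p (2 * m)) := Fintype.ofFinite _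
    have hK : Fintype.card (GaloisField p (2 * m)) = (p ^ m) ^ 2 := by
      rw [Fintype.card_eq_nat_card, GaloisField.card p (2 * m) hmpos, ← pow_mul, mul_comm]
    have h1 := sk_le (K := GaloisField p (2 * m)) ψ hψ S c t ht0 m hK
      (hm0.trans (Nat.pow_le_pow_right hpp.pos (by omega)))
    rw [sk_eq ψ S c t, hfr, hω (2 * m) (by omega), norm_neg] at h1
    rw [pow_mul, Real.sq_sqrt hp0.le]
    exact h1
  have hle : ∀ i, ‖ω i‖ ≤ √(p : ℝ) := fun i =>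
    bound_of_power_sums (2 * S.card) ω _ (√(p : ℝ)) (Real.sqrt_pos.mpr hp0) (m0 + 1) hbound i
  have h1 : sk ψ S c t (ZMod p) = -∑ i, ω i ^ 1 := by
    rw [sk_eq ψ S c t, Module.finrank_self, hω 1 le_rfl]
  have h2 : sk ψ S c t (ZMod p) =
      ∑ x ∈ Finset.univ \ S, ψ (∑ a ∈ S, c a * (x - a)⁻¹ + t * x) := by
    unfold sk
    rw [← Finset.sum_subset (Finset.subset_univ (Finset.univ \ S))]
    · refine Finset.sum_congr rfl fun x hx => ?_
      have hx' : x ∉ S := by simpa using hx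
      rw [if_neg (by rintro ⟨a, ha, rfl⟩; exact hx' ha), Algebra.trace_self_apply]
      unfold rf
      simp only [Algebra.algebraMap_self, RingHom.id_apply]
      rw [add_comm]
    · intro x _ hx
      have hx' : x ∈ S := by
        by_contra h
        exact hx (by simpa using h)
      rw [if_pos ⟨x, hx', rfl⟩]
  rw [← h2, h1, norm_neg]
  calc ‖∑ i, ω i ^ 1‖ ≤ ∑ i : Fin (2 * S.card), ‖ω i ^ 1‖ := norm_sum_le _ _
    _ ≤ ∑ _i : Fin (2 * S.card), √(p : ℝ) := Finset.sum_le_sum fun i _ => by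
        rw [pow_one]; exact hle i
    _ = 2 * S.card * √(p : ℝ) := by
        rw [Finset.sum_const, Finset.card_univ, Fintype.card_fin, nsmul_eq_mul]
        push_cast
        ring

end Pool.Agent.H24.W
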