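import Pool.Agent.H24.W.D1
import Pool.Agent.H19.QV.Defs

/-!
# [H24 W D2] Weil's bound, all cases

`weil_gen`: `ψ ≠ 1`, `a0 ∈ S`, `c a0 ≠ 0` or `t ≠ 0`: `|∑| ≤ 2 s √p + 1`, `s = |S|`.
`t ≠ 0`: then `ψ t ≠ 1`?  NO: replace `ψ` and `(c, t)` by scaling: `ψ ≠ 1` gives `v` with `ψ v ≠ 1`; put
`ψ1 = ψ (v⁻¹ t ·)`...  Simplest: `ψ = ZMod.stdAddChar`, which is injective (`ZMod.injective_stdAddChar`), so `ψ t ≠ 1`
for `t ≠ 0`; that is all we need.
`t = 0`: `a0 ∈ S`, `c a0 ≠ 0`.  Put `x = a0 + u⁻¹`, `u ≠ 0` (bijection of `u ≠ 0` with `x ≠ a0`), `S1 = S.erase a0`,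
for `a ∈ S1`: `x - a = (a0 - a) + u⁻¹ = ((a0 - a) u + 1)/u`, which vanishes iff `u = b(a) := 1/(a - a0)`, and
`c_a/(x - a) = c_a u/((a0 - a) u + 1) = c_a/(a0 - a) - c_a/(a0 - a)^2 * (u - b(a))⁻¹`.  So with
`S' = image b S1` (`b` injective, `|S'| = s - 1`), `c'(b(a)) = - c_a/(a0 - a)^2`, `t' = c a0`, `e0 = ∑ c_a/(a0 - a)`:
`∑_{x ∉ S} ψ(∑ c_a/(x - a)) = ψ(e0) ∑_{u ≠ 0, u ∉ S'} ψ(∑ c'_b/(u - b) + t' u)` `= ψ(e0) (∑_{u ∉ S'} .. - [term of u = 0])`
(`0 ∉ S'`), so the norm is `≤ 2 (s - 1) √p + 1` by `weil_inf`.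
`weil_main`: for `1 ≤ s ≤ 4` both cases are `≤ 9 √p` (`1 ≤ √p`), and `(p : ℝ)^(1/2) = √p` (`Real.sqrt_eq_rpow`).
-/

namespace Pool.Agent.H24.W

open Polynomial

theorem weil_zero {p : ℕ} [Fact p.Prime] (S : Finset (ZMod p)) (c : ZMod p → ZMod p)
    (a0 : ZMod p) (ha : a0 ∈ S) (hc : c a0 ≠ 0) :
    ‖∑ x ∈ Finset.univ \ S, (ZMod.stdAddChar (∑ a ∈ S, c a * (x - a)⁻¹) : ℂ)‖ ≤
      2 * (S.card - 1 : ℕ) * √(p : ℝ) + 1 := by
  classical
  obtain ⟨bf, hbf⟩ : ∃ bf : ZMod p → ZMod p, ∀ a, bf a = (a - a0)⁻¹ := ⟨_, fun _ => rfl⟩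
  have hbinj : Function.Injective bf := by
    intro a a' h
    rw [hbf, hbf, inv_inj] at h
    exact sub_left_injective h
  obtain ⟨S1, hS1⟩ : ∃ S1, S1 = S.erase a0 := ⟨_, rfl⟩
  have hne : ∀ a ∈ S1, a - a0 ≠ 0 := by
    intro a h
    rw [hS1, Finset.mem_erase] at h
    exact sub_ne_zero.mpr h.1
  obtain ⟨S', hS'⟩ : ∃ S', S' = S1.image bf := ⟨_, rfl⟩
  have hcard : S'.card = S.card - 1 := by
    rw [hS', Finset.card_image_of_injective _ hbinj, hS1, Finset.card_erase_of_mem ha]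
  have h0S' : (0 : ZMod p) ∉ S' := by
    rw [hS', Finset.mem_image]
    rintro ⟨a, h1, h2⟩
    rw [hbf, inv_eq_zero] at h2
    exact hne a h1 h2
  obtain ⟨c', hc'⟩ : ∃ c' : ZMod p → ZMod p, ∀ b, c' b = -c (a0 + b⁻¹) * b ^ 2 :=
    ⟨_, fun _ => rfl⟩
  obtain ⟨e0, he0⟩ : ∃ e0, e0 = ∑ a ∈ S1, c a * (a0 - a)⁻¹ := ⟨_, rfl⟩
  -- the identity of the functions
  have hfun : ∀ u : ZMod p, u ≠ 0 → u ∉ S' →
      ∑ a ∈ S, c a * ((a0 + u⁻¹) - a)⁻¹ = e0 + (∑ b ∈ S', c' b * (u - b)⁻¹ + c a0 * u) := by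
    intro u hu hu'
    rw [← Finset.add_sum_erase S _ ha, ← hS1, hS',
      Finset.sum_image (fun a _ a' _ h => hbinj h), he0, add_comm (∑ a ∈ S1, c' _ * _),
      add_left_comm, ← Finset.sum_add_distrib]
    congr 1
    · rw [add_sub_cancel_left, inv_inv]
    · refine Finset.sum_congr rfl fun a h => ?_
      have h1 := hne a h
      have h2 : u - bf a ≠ 0 := by
        intro h3
        apply hu'
        rw [hS', Finset.mem_image]
        exact ⟨a, h, (sub_eq_zero.mp h3).symm⟩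
      rw [hbf] at h2 ⊢
      rw [hc', inv_inv, add_sub_cancel]
      have h4 : a0 - a ≠ 0 := by
        intro h5
        apply h1
        rw [← neg_sub, h5, neg_zero]
      have h6 : (a0 + u⁻¹) - a ≠ 0 := by
        intro h7
        apply h2
        have h8 : u⁻¹ = a - a0 := by linear_combination h7
        rw [← h8, inv_inv, sub_self]
      have h9 : u * (a - a0) - 1 ≠ 0 := by
        intro h10
        apply h2
        have h11 : u * (a - a0) = 1 := by linear_combination h10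
        rw [eq_inv_of_mul_eq_one_left h11, sub_self]
      have h12 : (a0 + u⁻¹) - a = -(u * (a - a0) - 1) / u := by
        field_simp
        ring
      have h13 : u - (a - a0)⁻¹ = (u * (a - a0) - 1) / (a - a0) := by
        field_simp
      have h14 : a0 - a = -(a - a0) := by ring
      rw [h12, h13, h14]
      field_simp
      ring
  obtain ⟨g, hg⟩ : ∃ g : ZMod p → ℂ, ∀ u, g u =
      ZMod.stdAddChar (∑ b ∈ S', c' b * (u - b)⁻¹ + c a0 * u) := ⟨_, fun _ => rfl⟩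
  have hsum : ∑ x ∈ Finset.univ \ S, (ZMod.stdAddChar (∑ a ∈ S, c a * (x - a)⁻¹) : ℂ) =
      ZMod.stdAddChar e0 * ∑ u ∈ (Finset.univ \ S').erase 0, g u := by
    rw [Finset.mul_sum]
    refine Finset.sum_bij' (fun x _ => (x - a0)⁻¹) (fun u _ => a0 + u⁻¹) ?_ ?_ ?_ ?_ ?_
    · intro x hx
      have hx' : x ∉ S := by simpa using hx
      have hx0 : x - a0 ≠ 0 := by
        intro h
        rw [sub_eq_zero] at h
        exact hx' (h ▸ ha)
      rw [Finset.mem_erase]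
      refine ⟨inv_ne_zero hx0, ?_⟩
      rw [Finset.mem_sdiff]
      refine ⟨Finset.mem_univ _, ?_⟩
      rw [hS', Finset.mem_image]
      rintro ⟨a, h1, h2⟩
      rw [← hbf] at h2
      have h3 := hbinj h2
      rw [hS1, Finset.mem_erase] at h1
      exact hx' (h3 ▸ h1.2)
    · intro u hu
      rw [Finset.mem_erase, Finset.mem_sdiff] at hu
      rw [Finset.mem_sdiff]
      refine ⟨Finset.mem_univ _, ?_⟩
      intro h
      apply hu.2.2
      rw [hS', Finset.mem_image]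
      refine ⟨a0 + u⁻¹, ?_, ?_⟩
      · rw [hS1, Finset.mem_erase]
        refine ⟨?_, h⟩
        intro h1
        have h2 : u⁻¹ = 0 := by linear_combination h1
        exact hu.1 (inv_eq_zero.mp h2)
      · rw [hbf, add_sub_cancel_left, inv_inv]
    · intro x _
      rw [inv_inv]
      ring
    · intro u _
      rw [add_sub_cancel_left, inv_inv]
    · intro x hx
      have hx' : x ∉ S := by simpa using hx
      have hx0 : x - a0 ≠ 0 := by
        intro h
        rw [sub_eq_zero] at h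
        exact hx' (h ▸ ha)
      rw [hg, ← AddChar.map_add_eq_mul, ← hfun ((x - a0)⁻¹) (inv_ne_zero hx0), inv_inv,
        add_sub_cancel]
      rw [hS', Finset.mem_image]
      rintro ⟨a, h1, h2⟩
      rw [← hbf] at h2
      have h3 := hbinj h2
      rw [hS1, Finset.mem_erase] at h1
      exact hx' (h3 ▸ h1.2)
  have h0mem : (0 : ZMod p) ∈ Finset.univ \ S' := by
    rw [Finset.mem_sdiff]
    exact ⟨Finset.mem_univ _, h0S'⟩
  have herase : ∑ u ∈ (Finset.univ \ S').erase 0, g u =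
      ∑ u ∈ Finset.univ \ S', g u - g 0 := by
    rw [← Finset.add_sum_erase _ _ h0mem]
    ring
  have hψ : (ZMod.stdAddChar (c a0) : ℂ) ≠ 1 := by
    intro h
    apply hc
    apply ZMod.injective_stdAddChar
    rw [h, AddChar.map_zero_eq_one]
  have hW := weil_inf (ZMod.stdAddChar (N := p)) S' c' (c a0) hψ
  have hW' : ‖∑ u ∈ Finset.univ \ S', g u‖ ≤ 2 * (S.card - 1 : ℕ) * √(p : ℝ) := by
    rw [← hcard, Finset.sum_congr rfl fun u _ => hg u]
    exact hW
  have hn1 : ∀ z : ZMod p, ‖(ZMod.stdAddChar z : ℂ)‖ = 1 := fun z =>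
    AddChar.norm_apply ZMod.stdAddChar z
  rw [hsum, norm_mul, hn1, one_mul, herase]
  refine (norm_sub_le _ _).trans ?_
  rw [hg 0, hn1]
  linarith

theorem weil_main : Pool.Agent.H19.QV.Weil 9 (1 / 2) := by
  classical
  intro p _ S c t hS hS4 hcS
  have hpp : p.Prime := Fact.out
  have hp1 : (1 : ℝ) ≤ √(p : ℝ) := by
    rw [Real.one_le_sqrt]
    exact_mod_cast hpp.one_lt.le
  rw [← Real.sqrt_eq_rpow]
  unfold Pool.Agent.H19.QV.ws
  have h4 : (S.card : ℝ) ≤ 4 := by exact_mod_cast hS4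
  by_cases ht : t = 0
  · subst ht
    obtain ⟨a0, ha0⟩ := hS
    have h := weil_zero S c a0 ha0 (hcS a0 ha0)
    simp only [zero_mul, add_zero]
    refine h.trans ?_
    have h5 : ((S.card - 1 : ℕ) : ℝ) ≤ 3 := by
      have : S.card - 1 ≤ 3 := by omega
      exact_mod_cast this
    nlinarith
  · have hψ : (ZMod.stdAddChar t : ℂ) ≠ 1 := by
      intro h
      apply ht
      apply ZMod.injective_stdAddChar
      rw [h, AddChar.map_zero_eq_one]
    refine (weil_inf (ZMod.stdAddChar (N := p)) S c t hψ).trans ?_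
    nlinarith

end Pool.Agent.H24.W
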